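import Pool.Agent.T3H29.DG.Large

/-! Integers with restricted digits: distribution in residue classes. -/

set_option autoImplicit false

open Finset

namespace Pool.Agent.T3H29.DG

theorem ee_eq_one (y : ℝ) (h : ee y = 1) : ∃ n : ℤ, y = n := by
  unfold ee at h
  rw [Complex.exp_eq_one_iff] at h
  obtain ⟨n, hn⟩ := h
  refine ⟨n, ?_⟩
  have h1 : (2 * Real.pi * Complex.I : ℂ) ≠ 0 := Complex.two_pi_I_ne_zero
  have h2 : ((y : ℂ) - n) * (2 * Real.pi * Complex.I) = 0 := by
    linear_combination hn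
  have h3 := (mul_eq_zero.1 h2).resolve_right h1
  have h4 : (y : ℂ) = n := sub_eq_zero.1 h3
  exact_mod_cast h4

theorem orth (d : ℕ) (hd : 0 < d) (a : ℤ) :
    ∑ h ∈ range d, ee (h * ((a : ℝ) / d)) = if (d : ℤ) ∣ a then (d : ℂ) else 0 := by
  have hd0 : (d : ℝ) ≠ 0 := by exact_mod_cast hd.ne'
  split_ifs with h
  · obtain ⟨c, rfl⟩ := h
    have h1 : ∀ h ∈ range d, ee ((h : ℝ) * (((d * c : ℤ) : ℝ) / d)) = 1 := by
      intro h _
      have : (h : ℝ) * (((d * c : ℤ) : ℝ) / d) = ((h * c : ℤ) : ℝ) := by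
        push_cast
        field_simp
      rw [this, ee_int]
    rw [sum_congr rfl h1]
    simp
  · have h1 : ee ((a : ℝ) / d) ≠ 1 := by
      intro h2
      obtain ⟨n, hn⟩ := ee_eq_one _ h2
      apply h
      refine ⟨n, ?_⟩
      rw [div_eq_iff hd0] at hn
      have : (a : ℝ) = ((n * d : ℤ) : ℝ) := by push_cast; exact hn
      have h3 : a = n * d := by exact_mod_cast this
      rw [h3]
      ring
    have h2 : ∑ h ∈ range d, ee (h * ((a : ℝ) / d)) = ∑ h ∈ range d, ee ((a : ℝ) / d) ^ h :=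
      sum_congr rfl fun h _ => ee_nat_mul h _
    rw [h2]
    have h3 := geom_sum_mul (ee ((a : ℝ) / d)) d
    have h4 : ee ((a : ℝ) / d) ^ d = 1 := by
      rw [← ee_nat_mul]
      have : (d : ℝ) * ((a : ℝ) / d) = a := by field_simp
      rw [this, ee_int]
    rw [h4, sub_self] at h3
    exact (mul_eq_zero.1 h3).resolve_right (sub_ne_zero.2 h1)

/-- the number of the elements in a residue class -/
theorem class_eq (S : Finset ℕ) (d : ℕ) (hd : 0 < d) (x : ℕ) :
    |((S.filter (fun n : ℕ => n % d = x)).card : ℝ) - (if x < d then (S.card : ℝ) / d else 0)| ≤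
      if x < d then 1 / (d : ℝ) * ∑ h ∈ (range d).erase 0, ‖∑ n ∈ S, ee (n * ((h : ℝ) / d))‖ else 0 := by
  have hd0 : (0 : ℝ) < d := by exact_mod_cast hd
  split_ifs with hx
  swap
  · have : S.filter (fun n : ℕ => n % d = x) = ∅ := by
      apply filter_false_of_mem
      intro n _ h
      have := Nat.mod_lt n hd
      omega
    rw [this]
    simp
  have h1 : ((((S.filter (fun n : ℕ => n % d = x)).card : ℝ) - (S.card : ℝ) / d : ℝ) : ℂ) =
      1 / (d : ℂ) * ∑ h ∈ (range d).erase 0, ee (-(h * ((x : ℝ) / d))) * ∑ n ∈ S, ee (n * ((h : ℝ) / d)) := by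
    have h2 : (((S.filter (fun n : ℕ => n % d = x)).card : ℝ) : ℂ) =
        1 / (d : ℂ) * ∑ n ∈ S, ∑ h ∈ range d, ee (h * ((((n : ℤ) - x : ℤ) : ℝ) / d)) := by
      rw [card_filter, mul_sum]
      push_cast
      apply sum_congr rfl
      intro n _
      have h3 := orth d hd ((n : ℤ) - x)
      push_cast at h3
      rw [h3]
      have hiff : ((d : ℤ) ∣ (n : ℤ) - x) ↔ n % d = x := by
        rw [← Nat.modEq_iff_dvd]
        unfold Nat.ModEq
        rw [Nat.mod_eq_of_lt hx]
        exact eq_comm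
      by_cases h : n % d = x
      · rw [if_pos h, if_pos (hiff.2 h)]
        have : (d : ℂ) ≠ 0 := by exact_mod_cast hd.ne'
        rw [one_div_mul_cancel this]
        norm_num
      · rw [if_neg h, if_neg (fun h' => h (hiff.1 h'))]
        simp
    rw [Complex.ofReal_sub, h2, sum_comm]
    rw [← add_sum_erase (range d) _ (mem_range.2 hd), mul_add]
    have h3 : ∑ n ∈ S, ee (((0 : ℕ) : ℝ) * ((((n : ℤ) - x : ℤ) : ℝ) / d)) = S.card := by
      simp [ee_zero]
    rw [h3]
    have h4 : ∑ h ∈ (range d).erase 0, ∑ n ∈ S, ee (h * ((((n : ℤ) - x : ℤ) : ℝ) / d)) =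
        ∑ h ∈ (range d).erase 0, ee (-(h * ((x : ℝ) / d))) * ∑ n ∈ S, ee (n * ((h : ℝ) / d)) := by
      apply sum_congr rfl
      intro h _
      rw [mul_sum]
      apply sum_congr rfl
      intro n _
      rw [← ee_add]
      congr 1
      push_cast
      ring
    rw [h4]
    push_cast
    ring
  have h2 : |((S.filter (fun n : ℕ => n % d = x)).card : ℝ) - (S.card : ℝ) / d| =
      ‖((((S.filter (fun n : ℕ => n % d = x)).card : ℝ) - (S.card : ℝ) / d : ℝ) : ℂ)‖ := by
    rw [Complex.norm_real, Real.norm_eq_abs]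
  rw [h2, h1, norm_mul]
  have h3 : ‖1 / (d : ℂ)‖ = 1 / (d : ℝ) := by
    rw [norm_div, norm_one, Complex.norm_natCast]
  rw [h3]
  apply mul_le_mul_of_nonneg_left _ (by positivity)
  refine (norm_sum_le _ _).trans ?_
  apply sum_le_sum
  intro h _
  rw [norm_mul, norm_ee, one_mul]

/-- the elements in a set of residue classes -/
theorem classes (S : Finset ℕ) (d : ℕ) (hd : 0 < d) (P : ℕ → Prop) [DecidablePred P]
    (hP : ∀ n, P n ↔ P (n % d)) :
    |((S.filter P).card : ℝ) - ((range d).filter P).card * ((S.card : ℝ) / d)| ≤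
      ((range d).filter P).card / (d : ℝ) *
        ∑ h ∈ (range d).erase 0, ‖∑ n ∈ S, ee (n * ((h : ℝ) / d))‖ := by
  have h1 : ((S.filter P).card : ℝ) = ∑ x ∈ (range d).filter P, ((S.filter (fun n : ℕ => n % d = x)).card : ℝ) := by
    have h2 : (S.filter P).card = ∑ x ∈ (range d).filter P, ((S.filter P).filter (fun n : ℕ => n % d = x)).card := by
      apply card_eq_sum_card_fiberwise
      intro n hn
      rw [mem_coe, mem_filter] at hn
      rw [mem_coe, mem_filter, mem_range]
      exact ⟨Nat.mod_lt n hd, (hP n).1 hn.2⟩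
    rw [h2]
    push_cast
    apply sum_congr rfl
    intro x hx
    rw [mem_filter] at hx
    congr 2
    rw [filter_filter]
    apply filter_congr
    intro n _
    constructor
    · exact fun h => h.2
    · intro h
      refine ⟨?_, h⟩
      rw [hP n, h]
      exact hx.2
  have h2 : (((range d).filter P).card : ℝ) * ((S.card : ℝ) / d) = ∑ x ∈ (range d).filter P, (S.card : ℝ) / d := by
    rw [sum_const, nsmul_eq_mul]
  rw [h1, h2, ← sum_sub_distrib]
  refine (abs_sum_le_sum_abs _ _).trans ?_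
  have h3 : ∀ x ∈ (range d).filter P,
      |((S.filter (fun n : ℕ => n % d = x)).card : ℝ) - (S.card : ℝ) / d| ≤
      1 / (d : ℝ) * ∑ h ∈ (range d).erase 0, ‖∑ n ∈ S, ee (n * ((h : ℝ) / d))‖ := by
    intro x hx
    rw [mem_filter, mem_range] at hx
    have := class_eq S d hd x
    rw [if_pos hx.1, if_pos hx.1] at this
    exact this
  refine (sum_le_sum h3).trans (le_of_eq ?_)
  rw [sum_const, nsmul_eq_mul]
  ring

/-- fractions with denominator `d` in lowest terms -/
theorem sum_frac (d : ℕ) (hd : 0 < d) (f : ℝ → ℝ) (hf : ∀ x, 0 ≤ f x) :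
    ∑ h ∈ (range d).erase 0, f ((h : ℝ) / d) ≤
      ∑ e ∈ d.divisors.erase 1, ∑ h ∈ (range e).filter (fun h => Nat.Coprime h e), f ((h : ℝ) / e) := by
  rw [sum_sigma']
  set g : ℕ → (Σ _ : ℕ, ℕ) := fun h => ⟨d / Nat.gcd h d, h / Nat.gcd h d⟩ with hg
  have hmem : ∀ h ∈ (range d).erase 0, 0 < h ∧ h < d := by
    intro h hh
    rw [mem_erase, mem_range] at hh
    exact ⟨Nat.pos_of_ne_zero hh.1, hh.2⟩
  have hgp : ∀ h : ℕ, 0 < Nat.gcd h d := fun h => Nat.gcd_pos_of_pos_right _ hd
  have hrec : ∀ h : ℕ, (((g h).2 : ℝ) / (g h).1) = (h : ℝ) / d := by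
    intro h
    simp only [hg]
    have h1 : (Nat.gcd h d : ℝ) ≠ 0 := by exact_mod_cast (hgp h).ne'
    rw [Nat.cast_div (Nat.gcd_dvd_left h d) h1, Nat.cast_div (Nat.gcd_dvd_right h d) h1]
    have hd0 : (d : ℝ) ≠ 0 := by exact_mod_cast hd.ne'
    field_simp
  have hinj : Set.InjOn g ((range d).erase 0 : Finset ℕ) := by
    intro h _ h' _ hgg
    have h1 := hrec h
    rw [hgg, hrec h'] at h1
    have hd0 : (d : ℝ) ≠ 0 := by exact_mod_cast hd.ne'
    have h2 : (h' : ℝ) = h := by
      field_simp at h1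
      exact h1
    exact_mod_cast h2.symm
  calc ∑ h ∈ (range d).erase 0, f ((h : ℝ) / d) = ∑ h ∈ (range d).erase 0, f (((g h).2 : ℝ) / (g h).1) := by
        apply sum_congr rfl
        intro h _
        rw [hrec]
    _ = ∑ x ∈ ((range d).erase 0).image g, f ((x.2 : ℝ) / x.1) := by
        rw [sum_image (fun x hx y hy h => hinj hx hy h)]
    _ ≤ _ := by
        apply sum_le_sum_of_subset_of_nonneg
        · intro x hx
          rw [mem_image] at hx
          obtain ⟨h, hh, rfl⟩ := hx
          obtain ⟨h1, h2⟩ := hmem h hh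
          simp only [hg]
          rw [mem_sigma]
          dsimp only
          rw [mem_erase, Nat.mem_divisors, mem_filter, mem_range]
          have h3 : Nat.gcd h d ≤ h := Nat.gcd_le_left _ h1
          refine ⟨⟨?_, Nat.div_dvd_of_dvd (Nat.gcd_dvd_right h d), hd.ne'⟩, ?_, ?_⟩
          · intro h4
            have h5 := Nat.div_mul_cancel (Nat.gcd_dvd_right h d)
            rw [h4, one_mul] at h5
            omega
          · exact Nat.div_lt_div_of_lt_of_dvd (Nat.gcd_dvd_right h d) h2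
          · exact Nat.coprime_div_gcd_div_gcd (hgp h)
        · intro x _ _
          exact hf _

end Pool.Agent.T3H29.DG
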