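import Pool.Agent.T3H29.DG.Large

/-! Integers with restricted digits: dyadic decomposition. -/

set_option autoImplicit false

open Finset

namespace Pool.Agent.T3H29.DG

theorem sum_TS_pow (b m : ℕ) (D : ℕ → Finset ℕ) (k : ℕ) (hD : ∀ i < k, D i ⊆ range b)
    (hm : ∀ i < k, 1 ≤ i → (range b \ D i).card ≤ m) (hmb : 2 * m < b) (hb2 : 2 ≤ b) (η : ℝ)
    (hη0 : 0 ≤ η) (hL : ∑ t ∈ range b, gg b m t ≤ (b : ℝ) ^ η) (Q : ℕ) (hQ : 1 ≤ Q) :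
    ∑ e ∈ Icc 1 Q, TS b D k e ≤
      b * ((b * (Q : ℝ) ^ 2) ^ η + b * (Q : ℝ) ^ 2 * ((b : ℝ) ^ k) ^ (η - 1)) := by
  have hb : 0 < b := by omega
  have hb0 : (0 : ℝ) < b := by exact_mod_cast hb
  have hb1 : (1 : ℝ) ≤ b := by exact_mod_cast hb
  have hQ0 : (1 : ℝ) ≤ Q := by exact_mod_cast hQ
  set J := Nat.clog b (Q ^ 2) with hJ
  have h1 : Q ^ 2 ≤ b ^ J := Nat.le_pow_clog (by omega) _
  have h2 : ((b ^ J : ℕ) : ℝ) ≤ b * (Q : ℝ) ^ 2 := by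
    rcases Nat.eq_zero_or_pos J with h | h
    · rw [h, pow_zero, Nat.cast_one]
      nlinarith [pow_le_pow_left₀ (by norm_num : (0 : ℝ) ≤ 1) hQ0 2]
    · have h3 : b ^ (J - 1) < Q ^ 2 := by
        apply Nat.pow_lt_of_lt_clog
        rw [← hJ]
        omega
      have h4 : b ^ J = b * b ^ (J - 1) := by
        rw [← pow_succ']
        congr 1
        omega
      rw [h4]
      have h5 : b * b ^ (J - 1) ≤ b * Q ^ 2 := Nat.mul_le_mul_left _ h3.le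
      exact_mod_cast h5
  have hL1 : 1 ≤ (b : ℝ) ^ η := Real.one_le_rpow hb1 hη0
  refine (sum_TS b m D k hD hm hmb _ hL1 hL J Q h1).trans ?_
  apply mul_le_mul_of_nonneg_left _ hb0.le
  have hJr : ((b : ℝ) ^ J) ≤ b * (Q : ℝ) ^ 2 := by exact_mod_cast h2
  rcases le_total J k with h | h
  · rw [min_eq_left h, Nat.sub_eq_zero_of_le h, pow_zero, mul_one]
    have h5 : ((b : ℝ) ^ η) ^ J = ((b : ℝ) ^ J) ^ η := by
      rw [← Real.rpow_natCast, ← Real.rpow_mul hb0.le, mul_comm, Real.rpow_mul hb0.le,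
        Real.rpow_natCast]
    rw [h5]
    have h6 : ((b : ℝ) ^ J) ^ η ≤ (b * (Q : ℝ) ^ 2) ^ η :=
      Real.rpow_le_rpow (by positivity) hJr hη0
    have h7 : (0 : ℝ) ≤ b * (Q : ℝ) ^ 2 * ((b : ℝ) ^ k) ^ (η - 1) := by positivity
    linarith
  · rw [min_eq_right h]
    have h5 : ((b : ℝ) ^ η) ^ k = ((b : ℝ) ^ k) ^ η := by
      rw [← Real.rpow_natCast, ← Real.rpow_mul hb0.le, mul_comm, Real.rpow_mul hb0.le,
        Real.rpow_natCast]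
    have h6 : (b : ℝ) ^ (J - k) = (b : ℝ) ^ J / (b : ℝ) ^ k := by
      rw [eq_div_iff (by positivity), ← pow_add]
      congr 1
      omega
    have h7 : ((b : ℝ) ^ k) ^ (η - 1) = ((b : ℝ) ^ k) ^ η / (b : ℝ) ^ k := by
      rw [Real.rpow_sub (by positivity), Real.rpow_one]
    rw [h5, h6, h7]
    have h8 : ((b : ℝ) ^ k) ^ η * ((b : ℝ) ^ J / (b : ℝ) ^ k) ≤
        b * (Q : ℝ) ^ 2 * (((b : ℝ) ^ k) ^ η / (b : ℝ) ^ k) := by
      calc ((b : ℝ) ^ k) ^ η * ((b : ℝ) ^ J / (b : ℝ) ^ k) =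
          (b : ℝ) ^ J * (((b : ℝ) ^ k) ^ η / (b : ℝ) ^ k) := by ring
        _ ≤ _ := mul_le_mul_of_nonneg_right hJr (by positivity)
    have h9 : (0 : ℝ) ≤ (b * (Q : ℝ) ^ 2) ^ η := by positivity
    linarith

/-- one dyadic block -/
theorem block (b m : ℕ) (D : ℕ → Finset ℕ) (k : ℕ) (hD : ∀ i < k, D i ⊆ range b)
    (hm : ∀ i < k, 1 ≤ i → (range b \ D i).card ≤ m) (hmb : 2 * m < b) (hb2 : 2 ≤ b) (η σ : ℝ)
    (hη0 : 0 ≤ η) (hη1 : η ≤ 1) (hσ : 2 * η ≤ σ) (hσ1 : σ ≤ 1)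
    (hL : ∑ t ∈ range b, gg b m t ≤ (b : ℝ) ^ η) (E E0 Δ : ℕ) (hE0 : 1 ≤ E0) (hE : E0 ≤ E) (hEΔ : E ≤ Δ) :
    ∑ e ∈ Ioc E (2 * E), (e : ℝ) ^ (-σ) * TS b D k e ≤
      4 * (b : ℝ) ^ 2 * ((E0 : ℝ) ^ (-(σ - 2 * η)) + (Δ : ℝ) ^ (2 - σ) * ((b : ℝ) ^ k) ^ (η - 1)) := by
  have hb : 0 < b := by omega
  have hb0 : (0 : ℝ) < b := by exact_mod_cast hb
  have hb1 : (1 : ℝ) ≤ b := by exact_mod_cast hb
  have hE1 : (1 : ℝ) ≤ E := by exact_mod_cast hE0.trans hE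
  have hE0' : (0 : ℝ) < E := by linarith
  have hE01 : (1 : ℝ) ≤ E0 := by exact_mod_cast hE0
  have hEE0 : (E0 : ℝ) ≤ E := by exact_mod_cast hE
  have hEΔ' : (E : ℝ) ≤ Δ := by exact_mod_cast hEΔ
  have h1 : ∑ e ∈ Ioc E (2 * E), (e : ℝ) ^ (-σ) * TS b D k e ≤
      (E : ℝ) ^ (-σ) * ∑ e ∈ Icc 1 (2 * E), TS b D k e := by
    rw [mul_sum]
    calc ∑ e ∈ Ioc E (2 * E), (e : ℝ) ^ (-σ) * TS b D k e ≤
        ∑ e ∈ Ioc E (2 * E), (E : ℝ) ^ (-σ) * TS b D k e := by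
          apply sum_le_sum
          intro e he
          rw [mem_Ioc] at he
          apply mul_le_mul_of_nonneg_right _ (TS_nonneg _ _ _ _)
          apply Real.rpow_le_rpow_of_nonpos hE0'
          · exact_mod_cast he.1.le
          · linarith
      _ ≤ _ := by
          apply sum_le_sum_of_subset_of_nonneg
          · intro e he
            rw [mem_Ioc] at he
            rw [mem_Icc]
            omega
          · intro e _ _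
            exact mul_nonneg (by positivity) (TS_nonneg _ _ _ _)
  refine h1.trans ?_
  have h2 := sum_TS_pow b m D k hD hm hmb hb2 η hη0 hL (2 * E) (by omega)
  push_cast at h2
  have h3 : (b * (2 * (E : ℝ)) ^ 2) ^ η ≤ 4 * b * (E : ℝ) ^ (2 * η) := by
    have e1 : (b * (2 * (E : ℝ)) ^ 2) = (4 * b) * (E : ℝ) ^ 2 := by ring
    rw [e1, Real.mul_rpow (by positivity) (by positivity)]
    have e2 : ((E : ℝ) ^ 2) ^ η = (E : ℝ) ^ (2 * η) := by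
      rw [← Real.rpow_natCast, ← Real.rpow_mul hE0'.le]
      norm_num
    rw [e2]
    apply mul_le_mul_of_nonneg_right _ (by positivity)
    calc (4 * (b : ℝ)) ^ η ≤ (4 * (b : ℝ)) ^ (1 : ℝ) :=
          Real.rpow_le_rpow_of_exponent_le (by linarith) hη1
      _ = 4 * b := Real.rpow_one _
  have hN0 : (0 : ℝ) ≤ ((b : ℝ) ^ k) ^ (η - 1) := by positivity
  calc (E : ℝ) ^ (-σ) * ∑ e ∈ Icc 1 (2 * E), TS b D k e ≤
      (E : ℝ) ^ (-σ) * (b * ((b * (2 * (E : ℝ)) ^ 2) ^ η + b * (2 * (E : ℝ)) ^ 2 * ((b : ℝ) ^ k) ^ (η - 1))) :=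
        mul_le_mul_of_nonneg_left h2 (by positivity)
    _ ≤ (E : ℝ) ^ (-σ) * (b * (4 * b * (E : ℝ) ^ (2 * η) + b * (2 * (E : ℝ)) ^ 2 * ((b : ℝ) ^ k) ^ (η - 1))) := by
        gcongr
    _ = 4 * (b : ℝ) ^ 2 * (((E : ℝ) ^ (-σ) * (E : ℝ) ^ (2 * η)) +
        ((E : ℝ) ^ (-σ) * (E : ℝ) ^ (2 : ℝ)) * ((b : ℝ) ^ k) ^ (η - 1)) := by
        rw [Real.rpow_two]
        ring
    _ = 4 * (b : ℝ) ^ 2 * ((E : ℝ) ^ (-(σ - 2 * η)) + (E : ℝ) ^ (2 - σ) * ((b : ℝ) ^ k) ^ (η - 1)) := by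
        rw [← Real.rpow_add hE0', ← Real.rpow_add hE0']
        congr 3
        · ring_nf
        · ring_nf
    _ ≤ _ := by
        apply mul_le_mul_of_nonneg_left _ (by positivity)
        apply add_le_add
        · exact Real.rpow_le_rpow_of_nonpos (by linarith) hEE0 (by linarith)
        · apply mul_le_mul_of_nonneg_right _ hN0
          exact Real.rpow_le_rpow hE0'.le hEΔ' (by linarith)

theorem dyad (b m : ℕ) (D : ℕ → Finset ℕ) (k : ℕ) (hD : ∀ i < k, D i ⊆ range b)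
    (hm : ∀ i < k, 1 ≤ i → (range b \ D i).card ≤ m) (hmb : 2 * m < b) (hb2 : 2 ≤ b) (η σ : ℝ)
    (hη0 : 0 ≤ η) (hη1 : η ≤ 1) (hσ : 2 * η ≤ σ) (hσ1 : σ ≤ 1)
    (hL : ∑ t ∈ range b, gg b m t ≤ (b : ℝ) ^ η) (E0 Δ M : ℕ) (hE0 : 1 ≤ E0) :
    ∑ e ∈ (Ioc E0 (E0 * 2 ^ M)).filter (fun e => e ≤ Δ), (e : ℝ) ^ (-σ) * TS b D k e ≤
      M * (4 * (b : ℝ) ^ 2 * ((E0 : ℝ) ^ (-(σ - 2 * η)) + (Δ : ℝ) ^ (2 - σ) * ((b : ℝ) ^ k) ^ (η - 1))) := by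
  induction M with
  | zero => simp
  | succ M ih =>
    have hX0 : 0 ≤ 4 * (b : ℝ) ^ 2 * ((E0 : ℝ) ^ (-(σ - 2 * η)) + (Δ : ℝ) ^ (2 - σ) * ((b : ℝ) ^ k) ^ (η - 1)) := by
      positivity
    have h1 : (Ioc E0 (E0 * 2 ^ (M + 1))).filter (fun e => e ≤ Δ) ⊆
        (Ioc E0 (E0 * 2 ^ M)).filter (fun e => e ≤ Δ) ∪
        (Ioc (E0 * 2 ^ M) (2 * (E0 * 2 ^ M))).filter (fun e => e ≤ Δ) := by
      intro e he
      rw [mem_filter, mem_Ioc, pow_succ] at he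
      rw [mem_union, mem_filter, mem_filter, mem_Ioc, mem_Ioc]
      obtain ⟨⟨h1, h2⟩, h3⟩ := he
      have h4 : E0 * (2 ^ M * 2) = 2 * (E0 * 2 ^ M) := by ring
      rw [h4] at h2
      by_cases h5 : e ≤ E0 * 2 ^ M
      · exact Or.inl ⟨⟨h1, h5⟩, h3⟩
      · exact Or.inr ⟨⟨by omega, h2⟩, h3⟩
    have hnn : ∀ e : ℕ, 0 ≤ (e : ℝ) ^ (-σ) * TS b D k e := fun e =>
      mul_nonneg (by positivity) (TS_nonneg _ _ _ _)
    have h2 : ∑ e ∈ (Ioc (E0 * 2 ^ M) (2 * (E0 * 2 ^ M))).filter (fun e => e ≤ Δ),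
        (e : ℝ) ^ (-σ) * TS b D k e ≤
        4 * (b : ℝ) ^ 2 * ((E0 : ℝ) ^ (-(σ - 2 * η)) + (Δ : ℝ) ^ (2 - σ) * ((b : ℝ) ^ k) ^ (η - 1)) := by
      by_cases h3 : E0 * 2 ^ M ≤ Δ
      · refine le_trans ?_ (block b m D k hD hm hmb hb2 η σ hη0 hη1 hσ hσ1 hL (E0 * 2 ^ M) E0 Δ hE0
          (Nat.le_mul_of_pos_right _ (by positivity)) h3)
        exact sum_le_sum_of_subset_of_nonneg (filter_subset _ _) fun e _ _ => hnn e
      · rw [filter_false_of_mem, sum_empty]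
        · exact hX0
        · intro e he
          rw [mem_Ioc] at he
          omega
    calc _ ≤ ∑ e ∈ (Ioc E0 (E0 * 2 ^ M)).filter (fun e => e ≤ Δ) ∪
        (Ioc (E0 * 2 ^ M) (2 * (E0 * 2 ^ M))).filter (fun e => e ≤ Δ), (e : ℝ) ^ (-σ) * TS b D k e :=
          sum_le_sum_of_subset_of_nonneg h1 fun e _ _ => hnn e
      _ ≤ (∑ e ∈ (Ioc E0 (E0 * 2 ^ M)).filter (fun e => e ≤ Δ), (e : ℝ) ^ (-σ) * TS b D k e) +
          ∑ e ∈ (Ioc (E0 * 2 ^ M) (2 * (E0 * 2 ^ M))).filter (fun e => e ≤ Δ),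
            (e : ℝ) ^ (-σ) * TS b D k e := by
          have := sum_union_inter (s₁ := (Ioc E0 (E0 * 2 ^ M)).filter (fun e => e ≤ Δ))
            (s₂ := (Ioc (E0 * 2 ^ M) (2 * (E0 * 2 ^ M))).filter (fun e => e ≤ Δ))
            (f := fun e : ℕ => (e : ℝ) ^ (-σ) * TS b D k e)
          have h4 : 0 ≤ ∑ e ∈ (Ioc E0 (E0 * 2 ^ M)).filter (fun e => e ≤ Δ) ∩
            (Ioc (E0 * 2 ^ M) (2 * (E0 * 2 ^ M))).filter (fun e => e ≤ Δ),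
            (e : ℝ) ^ (-σ) * TS b D k e := sum_nonneg fun e _ => hnn e
          linarith
      _ ≤ M * (4 * (b : ℝ) ^ 2 * ((E0 : ℝ) ^ (-(σ - 2 * η)) + (Δ : ℝ) ^ (2 - σ) * ((b : ℝ) ^ k) ^ (η - 1))) +
          4 * (b : ℝ) ^ 2 * ((E0 : ℝ) ^ (-(σ - 2 * η)) + (Δ : ℝ) ^ (2 - σ) * ((b : ℝ) ^ k) ^ (η - 1)) :=
          add_le_add ih h2
      _ = _ := by
          push_cast
          ring

end Pool.Agent.T3H29.DG
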