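import Pool.Agent.T3H29.DG.Large

/-! Integers with restricted digits: the exponential sums at fractions with a small denominator. -/

set_option autoImplicit false

open Finset

namespace Pool.Agent.T3H29.DG

theorem norm_one_add_ee (x : ℝ) (s : ℝ) (hs : 0 ≤ s) (h1 : s ≤ x) (h2 : x ≤ 1 - s) :
    ‖1 + ee x‖ ≤ 2 * (1 - 2 * s ^ 2) := by
  have h3 : ‖1 + ee x‖ = 2 * |Real.cos (Real.pi * x)| := by
    have h4 : ee (x + 1 / 2) = - ee x := by
      rw [ee_add]
      have : ee (1 / 2) = -1 := by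
        unfold ee
        have : (2 * Real.pi * ((1 / 2 : ℝ) : ℂ) * Complex.I : ℂ) = Real.pi * Complex.I := by
          push_cast
          ring
        rw [this, Complex.exp_pi_mul_I]
      rw [this]
      ring
    have h5 := norm_ee_sub_one (x + 1 / 2)
    rw [h4] at h5
    have h6 : ‖-ee x - 1‖ = ‖1 + ee x‖ := by
      rw [← norm_neg]
      congr 1
      ring
    rw [h6] at h5
    rw [h5, show Real.pi * (x + 1 / 2) = Real.pi * x + Real.pi / 2 by ring, Real.sin_add_pi_div_two]
  have h4 := sin_ge x s hs h1 h2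
  have h5 := Real.sin_sq_add_cos_sq (Real.pi * x)
  have hs2 : s ≤ 1 / 2 := by linarith
  have h6 : |Real.cos (Real.pi * x)| ≤ 1 - 2 * s ^ 2 := by
    apply abs_le_of_sq_le_sq _ (by nlinarith)
    nlinarith [sq_nonneg (s ^ 2)]
  rw [h3]
  linarith

theorem ff_small (b : ℕ) (D : Finset ℕ) (hD : D ⊆ range b) (t : ℕ) (ht : t ∈ D) (ht1 : t + 1 ∈ D)
    (hb : 2 ≤ b) (x : ℝ) (h1 : 1 / (2 * (b : ℝ)) ≤ x) (h2 : x ≤ 1 - 1 / (2 * (b : ℝ))) :
    ff D x ≤ 1 - 1 / (b : ℝ) ^ 3 := by
  have hb0 : (0 : ℝ) < b := by exact_mod_cast (by omega : 0 < b)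
  have hcard : (D.card : ℝ) ≤ b := by
    have := card_le_card hD
    rw [card_range] at this
    exact_mod_cast this
  have hsub : ({t, t + 1} : Finset ℕ) ⊆ D := by
    intro y hy
    rw [mem_insert, mem_singleton] at hy
    rcases hy with rfl | rfl
    · exact ht
    · exact ht1
  have hcard0 : (2 : ℝ) ≤ D.card := by
    have := card_le_card hsub
    rw [card_pair (by omega)] at this
    exact_mod_cast this
  have hsum : ‖∑ u ∈ D, ee (u * x)‖ ≤ D.card - 1 / (b : ℝ) ^ 2 := by
    rw [← sum_sdiff hsub, sum_pair (by omega)]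
    have e1 : ee (t * x) + ee (((t + 1 : ℕ) : ℝ) * x) = ee (t * x) * (1 + ee x) := by
      have : (((t + 1 : ℕ) : ℝ) * x) = t * x + x := by push_cast; ring
      rw [this, ee_add]
      ring
    rw [e1]
    have e2 : ‖ee (t * x) * (1 + ee x)‖ ≤ 2 * (1 - 2 * (1 / (2 * (b : ℝ))) ^ 2) := by
      rw [norm_mul, norm_ee, one_mul]
      exact norm_one_add_ee x _ (by positivity) h1 h2
    have e3 : ‖∑ u ∈ D \ {t, t + 1}, ee (u * x)‖ ≤ D.card - 2 := by
      calc ‖∑ u ∈ D \ {t, t + 1}, ee (u * x)‖ ≤ ∑ u ∈ D \ {t, t + 1}, ‖ee (u * x)‖ := norm_sum_le _ _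
        _ = ((D \ {t, t + 1}).card : ℝ) := by simp [norm_ee]
        _ = D.card - 2 := by
            have := card_sdiff_add_card_eq_card hsub
            rw [card_pair (by omega)] at this
            have h3 : ((D \ {t, t + 1}).card : ℝ) + 2 = D.card := by exact_mod_cast this
            linarith
    have e4 : 2 * (1 - 2 * (1 / (2 * (b : ℝ))) ^ 2) = 2 - 1 / (b : ℝ) ^ 2 := by
      field_simp
    rw [e4] at e2
    refine (norm_add_le _ _).trans ?_
    linarith
  unfold ff
  rw [div_le_iff₀ (by linarith)]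
  refine hsum.trans ?_
  have h4 : 1 / (b : ℝ) ^ 3 * D.card ≤ 1 / (b : ℝ) ^ 2 := by
    calc 1 / (b : ℝ) ^ 3 * D.card ≤ 1 / (b : ℝ) ^ 3 * b := by gcongr
      _ = _ := by field_simp
  linarith

/-- among the digits there are two consecutive ones -/
theorem consec (b m : ℕ) (D : Finset ℕ) (hm : (range b \ D).card ≤ m) (hmb : 2 * m + 2 ≤ b) :
    ∃ t, t ∈ D ∧ t + 1 ∈ D := by
  by_contra hcon
  push Not at hcon
  have h1 : ∀ s ∈ range (m + 1), (if 2 * s ∈ D then 2 * s + 1 else 2 * s) ∈ range b \ D := by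
    intro s hs
    have := mem_range.1 hs
    split_ifs with h
    · rw [mem_sdiff, mem_range]
      exact ⟨by omega, hcon _ h⟩
    · rw [mem_sdiff, mem_range]
      exact ⟨by omega, h⟩
  have h2 : (range (m + 1)).card ≤ (range b \ D).card := by
    apply card_le_card_of_injOn (fun s => if 2 * s ∈ D then 2 * s + 1 else 2 * s)
    · intro s hs
      exact h1 s hs
    · intro x _ y _ hxy
      simp only at hxy
      split_ifs at hxy <;> omega
  rw [card_range] at h2
  omega

/-- in every window of length `w` there is a place at which the multiple of the fraction is far from the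
integers -/
theorem window (b e h w : ℕ) (hb : 2 ≤ b) (he : 1 < e) (hbe : Nat.Coprime e b) (hhe : Nat.Coprime h e)
    (hw : e ≤ b ^ w) (j : ℕ) : ∃ i < w, ∃ (n : ℤ) (x : ℝ), (b : ℝ) ^ (j + i) * ((h : ℝ) / e) = x + n ∧
      1 / (2 * (b : ℝ)) ≤ x ∧ x ≤ 1 - 1 / (2 * (b : ℝ)) := by
  have hb0 : (0 : ℝ) < b := by exact_mod_cast (by omega : 0 < b)
  have hb2 : (2 : ℝ) ≤ b := by exact_mod_cast hb
  have he0 : (0 : ℝ) < e := by exact_mod_cast (by omega : 0 < e)
  by_contra hcon
  push Not at hcon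
  -- signed distance to the nearest integer
  have hnear : ∀ i < w, ∃ (n : ℤ), |(b : ℝ) ^ (j + i) * ((h : ℝ) / e) - n| < 1 / (2 * (b : ℝ)) := by
    intro i hi
    set y : ℝ := (b : ℝ) ^ (j + i) * ((h : ℝ) / e) with hy
    have h1 := hcon i hi ⌊y⌋ (Int.fract y) (by rw [Int.fract_add_floor])
    have h2 := Int.fract_nonneg y
    have h3 := Int.fract_lt_one y
    have h4 := Int.fract_add_floor y
    by_cases h5 : 1 / (2 * (b : ℝ)) ≤ Int.fract y
    · have h6 := h1 h5
      refine ⟨⌊y⌋ + 1, ?_⟩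
      push_cast
      rw [abs_lt]
      constructor <;> linarith
    · push Not at h5
      refine ⟨⌊y⌋, ?_⟩
      rw [abs_lt]
      constructor <;> linarith
  -- the distance grows by the factor b
  have hgrow : ∀ i ≤ w, ∃ n : ℤ, |(b : ℝ) ^ (j + i) * ((h : ℝ) / e) - n| < 1 / 2 ∧
      (b : ℝ) ^ i / e ≤ |(b : ℝ) ^ (j + i) * ((h : ℝ) / e) - n| := by
    intro i
    induction i with
    | zero =>
      intro _
      have hw0 : 0 < w := by
        by_contra h0
        have : w = 0 := by omega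
        rw [this, pow_zero] at hw
        omega
      obtain ⟨n, hn⟩ := hnear 0 hw0
      refine ⟨n, ?_, ?_⟩
      · refine hn.trans_le ?_
        rw [div_le_div_iff₀ (by positivity) (by norm_num)]
        linarith
      · rw [pow_zero]
        have h1 : (b : ℝ) ^ (j + 0) * ((h : ℝ) / e) - n = (((b : ℤ) ^ j * h - n * e : ℤ) : ℝ) / e := by
          push_cast
          field_simp
          rw [add_zero]
          ring
        rw [h1, abs_div, abs_of_pos he0]
        apply div_le_div_of_nonneg_right _ he0.le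
        have h2 : ((b : ℤ) ^ j * h - n * e : ℤ) ≠ 0 := by
          intro h3
          have h4 : (e : ℤ) ∣ (b : ℤ) ^ j * h := ⟨n, by linarith⟩
          have h5 : e ∣ b ^ j * h := by exact_mod_cast h4
          have h6 : e ∣ h := (Nat.Coprime.pow_right j hbe).dvd_of_dvd_mul_left h5
          have h7 : e ∣ 1 := by
            rw [← hhe]
            exact Nat.dvd_gcd h6 dvd_rfl
          have := Nat.le_of_dvd one_pos h7
          omega
        have h3 := Int.one_le_abs h2
        exact_mod_cast h3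
    | succ i ih =>
      intro hi
      obtain ⟨n, hn1, hn2⟩ := ih (by omega)
      obtain ⟨n', hn'⟩ := hnear i (by omega)
      have hnn : n = n' := by
        have h1 : |((n - n' : ℤ) : ℝ)| < 1 := by
          have h2 : 1 / (2 * (b : ℝ)) ≤ 1 / 2 := by
            rw [div_le_div_iff₀ (by positivity) (by norm_num)]
            linarith
          have h3 := abs_lt.1 hn1
          have h4 := abs_lt.1 hn'
          push_cast
          rw [abs_lt]
          constructor <;> linarith
        have h2 : |n - n'| < 1 := by exact_mod_cast h1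
        have h3 := Int.abs_lt_one_iff.1 h2
        linarith
      subst hnn
      refine ⟨b * n, ?_, ?_⟩
      · have h1 : (b : ℝ) ^ (j + (i + 1)) * ((h : ℝ) / e) - ((b * n : ℤ) : ℝ) =
            b * ((b : ℝ) ^ (j + i) * ((h : ℝ) / e) - n) := by
          rw [← add_assoc, pow_succ]
          push_cast
          ring
        rw [h1, abs_mul, abs_of_pos hb0]
        calc (b : ℝ) * |(b : ℝ) ^ (j + i) * ((h : ℝ) / e) - n| < b * (1 / (2 * (b : ℝ))) :=
              mul_lt_mul_of_pos_left hn' hb0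
          _ = 1 / 2 := by field_simp
      · have h1 : (b : ℝ) ^ (j + (i + 1)) * ((h : ℝ) / e) - ((b * n : ℤ) : ℝ) =
            b * ((b : ℝ) ^ (j + i) * ((h : ℝ) / e) - n) := by
          rw [← add_assoc, pow_succ]
          push_cast
          ring
        rw [h1, abs_mul, abs_of_pos hb0, pow_succ]
        calc (b : ℝ) ^ i * b / e = b * ((b : ℝ) ^ i / e) := by ring
          _ ≤ _ := mul_le_mul_of_nonneg_left hn2 hb0.le
  obtain ⟨n, h1, h2⟩ := hgrow w le_rfl
  have h3 : (1 : ℝ) ≤ (b : ℝ) ^ w / e := by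
    rw [le_div_iff₀ he0, one_mul]
    exact_mod_cast hw
  linarith

theorem prod_windows (F : ℕ → ℝ) (hF0 : ∀ i, 0 ≤ F i) (hF1 : ∀ i, F i ≤ 1) (w : ℕ) (c : ℝ) (hc0 : 0 ≤ c)
    (k : ℕ) (h : ∀ j, 1 ≤ j → j + w ≤ k → ∃ i < w, F (j + i) ≤ c) (Q : ℕ) (hQ : 1 + Q * w ≤ k) :
    ∏ i ∈ range k, F i ≤ c ^ Q := by
  have hmain : ∀ Q : ℕ, 1 + Q * w ≤ k → ∏ i ∈ range (1 + Q * w), F i ≤ c ^ Q := by
    intro Q
    induction Q with
    | zero =>
      intro _
      simp only [zero_mul, add_zero, range_one, prod_singleton, pow_zero]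
      exact hF1 0
    | succ Q ih =>
      intro hQ
      have e1 : 1 + (Q + 1) * w = (1 + Q * w) + w := by ring
      rw [e1, prod_range_add, pow_succ]
      rw [e1] at hQ
      apply mul_le_mul (ih (by omega))
      · obtain ⟨i, hi, hFi⟩ := h (1 + Q * w) (by omega) hQ
        rw [← mul_prod_erase (range w) (fun x => F (1 + Q * w + x)) (mem_range.2 hi)]
        calc F (1 + Q * w + i) * ∏ x ∈ (range w).erase i, F (1 + Q * w + x) ≤ c * 1 := by
              apply mul_le_mul hFi
              · exact prod_le_one (fun _ _ => hF0 _) (fun _ _ => hF1 _)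
              · exact prod_nonneg fun _ _ => hF0 _
              · exact hc0
          _ = c := mul_one _
      · exact prod_nonneg fun _ _ => hF0 _
      · positivity
  obtain ⟨l, rfl⟩ : ∃ l, k = (1 + Q * w) + l := ⟨k - (1 + Q * w), by omega⟩
  rw [prod_range_add]
  calc (∏ x ∈ range (1 + Q * w), F x) * ∏ x ∈ range l, F (1 + Q * w + x) ≤ c ^ Q * 1 := by
        apply mul_le_mul (hmain Q (by omega))
        · exact prod_le_one (fun _ _ => hF0 _) (fun _ _ => hF1 _)
        · exact prod_nonneg fun _ _ => hF0 _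
        · positivity
    _ = _ := mul_one _

/-- **Small denominators.** -/
theorem TT_small (b m : ℕ) (D : ℕ → Finset ℕ) (k : ℕ) (hD : ∀ i < k, D i ⊆ range b)
    (hm : ∀ i < k, 1 ≤ i → (range b \ D i).card ≤ m) (hmb : 2 * m + 2 ≤ b) (e h w : ℕ) (he : 1 < e)
    (hbe : Nat.Coprime e b) (hhe : Nat.Coprime h e) (hw : e ≤ b ^ w) (Q : ℕ) (hQ : 1 + Q * w ≤ k) :
    TT b D k ((h : ℝ) / e) ≤ (1 - 1 / (b : ℝ) ^ 3) ^ Q := by
  have hb2 : 2 ≤ b := by omega
  have hb0 : (2 : ℝ) ≤ b := by exact_mod_cast hb2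
  set F : ℕ → ℝ := fun i => ff (D i) ((b : ℝ) ^ i * ((h : ℝ) / e)) with hF
  apply prod_windows F (fun i => ff_nonneg _ _) (fun i => ff_le_one _ _) w _ _ k _ Q hQ
  · have : 1 / (b : ℝ) ^ 3 ≤ 1 := by
      rw [div_le_one (by positivity)]
      exact one_le_pow₀ (by linarith)
    linarith
  · intro j hj hjk
    obtain ⟨i, hi, n, x, hx, hx1, hx2⟩ := window b e h w hb2 he hbe hhe hw j
    refine ⟨i, hi, ?_⟩
    simp only [hF]
    rw [hx, ff_add_int]
    obtain ⟨t, ht, ht1⟩ := consec b m (D (j + i)) (hm (j + i) (by omega) (by omega)) hmb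
    exact ff_small b (D (j + i)) (hD _ (by omega)) t ht ht1 hb2 x hx1 hx2

theorem TS_small (b m : ℕ) (D : ℕ → Finset ℕ) (k : ℕ) (hD : ∀ i < k, D i ⊆ range b)
    (hm : ∀ i < k, 1 ≤ i → (range b \ D i).card ≤ m) (hmb : 2 * m + 2 ≤ b) (e w : ℕ) (he : 1 < e)
    (hbe : Nat.Coprime e b) (hw : e ≤ b ^ w) (Q : ℕ) (hQ : 1 + Q * w ≤ k) :
    TS b D k e ≤ e * (1 - 1 / (b : ℝ) ^ 3) ^ Q := by
  unfold TS
  have hb0 : (2 : ℝ) ≤ b := by exact_mod_cast (by omega : 2 ≤ b)
  have h0 : (0 : ℝ) ≤ 1 - 1 / (b : ℝ) ^ 3 := by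
    have : 1 / (b : ℝ) ^ 3 ≤ 1 := by
      rw [div_le_one (by positivity)]
      exact one_le_pow₀ (by linarith)
    linarith
  calc ∑ h ∈ (range e).filter (fun h => Nat.Coprime h e), TT b D k ((h : ℝ) / e) ≤
      ∑ h ∈ (range e).filter (fun h => Nat.Coprime h e), (1 - 1 / (b : ℝ) ^ 3) ^ Q := by
        apply sum_le_sum
        intro h hh
        rw [mem_filter] at hh
        exact TT_small b m D k hD hm hmb e h w he hbe hh.2 hw Q hQ
    _ = (((range e).filter (fun h => Nat.Coprime h e)).card : ℝ) * (1 - 1 / (b : ℝ) ^ 3) ^ Q := by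
        rw [sum_const, nsmul_eq_mul]
    _ ≤ _ := by
        apply mul_le_mul_of_nonneg_right _ (by positivity)
        have := card_filter_le (range e) (fun h => Nat.Coprime h e)
        rw [card_range] at this
        exact_mod_cast this

end Pool.Agent.T3H29.DG
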