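import Pool.Agent.T3H29.DG.Dist
import Pool.Agent.T3H29.DG.Dyad
import Pool.Agent.T3H29.DG.Small

/-! Integers with restricted digits: the sum of the error terms. -/

set_option autoImplicit false

open Finset

namespace Pool.Agent.T3H29.DG

/-- `2` to the number of the prime factors -/
def kap (d : ℕ) : ℕ := 2 ^ d.primeFactors.card

theorem kap_le (f : ℕ) (hf : f ≠ 0) : kap f ≤ f.divisors.card := by
  unfold kap
  rw [← card_powerset]
  apply card_le_card_of_injOn (fun T => ∏ p ∈ T, p)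
  · intro T hT
    rw [mem_coe, mem_powerset] at hT
    show ∏ p ∈ T, p ∈ _
    rw [mem_coe, Nat.mem_divisors]
    refine ⟨?_, hf⟩
    exact (prod_dvd_prod_of_subset _ _ _ hT).trans (Nat.prod_primeFactors_dvd f)
  · intro T hT T' hT' h
    rw [mem_coe, mem_powerset] at hT hT'
    have h1 : (∏ p ∈ T, p).primeFactors = T :=
      Nat.primeFactors_prod fun p hp => Nat.prime_of_mem_primeFactors (hT hp)
    have h2 : (∏ p ∈ T', p).primeFactors = T' :=
      Nat.primeFactors_prod fun p hp => Nat.prime_of_mem_primeFactors (hT' hp)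
    have h3 : (∏ p ∈ T, p) = ∏ p ∈ T', p := h
    rw [← h1, ← h2, h3]

theorem kap_mul (e f : ℕ) (he : e ≠ 0) (hf : f ≠ 0) : kap (e * f) ≤ kap e * kap f := by
  unfold kap
  rw [← pow_add]
  apply Nat.pow_le_pow_right (by norm_num)
  rw [Nat.primeFactors_mul he hf]
  exact card_union_le _ _

theorem sum_inv (Δ : ℕ) : ∑ a ∈ Icc 1 Δ, 1 / (a : ℝ) ≤ 1 + Real.log Δ := by
  have h1 := harmonic_le_one_add_log Δ
  rw [harmonic_eq_sum_Icc] at h1
  push_cast at h1
  simpa [one_div] using h1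

theorem sum_kap (Δ : ℕ) : ∑ f ∈ Icc 1 Δ, (kap f : ℝ) / f ≤ (1 + Real.log Δ) ^ 2 := by
  have h1 : ∑ f ∈ Icc 1 Δ, (kap f : ℝ) / f ≤ ∑ f ∈ Icc 1 Δ, ∑ a ∈ f.divisors, 1 / (f : ℝ) := by
    apply sum_le_sum
    intro f hf
    rw [mem_Icc] at hf
    rw [sum_const, nsmul_eq_mul, mul_one_div]
    apply div_le_div_of_nonneg_right _ (Nat.cast_nonneg _)
    exact_mod_cast kap_le f (by omega)
  refine h1.trans ?_
  rw [sum_sigma']
  set g : (Σ _ : ℕ, ℕ) → ℕ × ℕ := fun x => (x.2, x.1 / x.2) with hg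
  set P := (Icc 1 Δ).sigma (fun f => f.divisors) with hP
  have hmem : ∀ x ∈ P, 1 ≤ x.1 ∧ x.1 ≤ Δ ∧ x.2 ∣ x.1 ∧ 0 < x.2 := by
    intro x hx
    rw [hP, mem_sigma, mem_Icc, Nat.mem_divisors] at hx
    exact ⟨hx.1.1, hx.1.2, hx.2.1, Nat.pos_of_dvd_of_pos hx.2.1 hx.1.1⟩
  have hinj : Set.InjOn g P := by
    intro x hx y hy hxy
    obtain ⟨x1, x2, x3, x4⟩ := hmem x hx
    obtain ⟨y1, y2, y3, y4⟩ := hmem y hy
    simp only [hg, Prod.mk.injEq] at hxy
    obtain ⟨h3, h4⟩ := hxy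
    have h5 := Nat.div_mul_cancel x3
    have h6 := Nat.div_mul_cancel y3
    rw [h4, h3, h6] at h5
    cases x
    cases y
    simp only at h3 h5
    subst h3
    subst h5
    rfl
  calc ∑ x ∈ P, 1 / (x.1 : ℝ) = ∑ x ∈ P, 1 / ((g x).1 : ℝ) * (1 / ((g x).2 : ℝ)) := by
        apply sum_congr rfl
        intro x hx
        obtain ⟨x1, x2, x3, x4⟩ := hmem x hx
        simp only [hg]
        have h5 : (x.2 : ℝ) ≠ 0 := by exact_mod_cast x4.ne'
        rw [Nat.cast_div x3 h5]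
        have h6 : (x.1 : ℝ) ≠ 0 := by exact_mod_cast (by omega : x.1 ≠ 0)
        field_simp
    _ = ∑ y ∈ P.image g, 1 / (y.1 : ℝ) * (1 / (y.2 : ℝ)) := by
        rw [sum_image (fun x hx y hy h => hinj hx hy h)]
    _ ≤ ∑ y ∈ (Icc 1 Δ) ×ˢ (Icc 1 Δ), 1 / (y.1 : ℝ) * (1 / (y.2 : ℝ)) := by
        apply sum_le_sum_of_subset_of_nonneg
        · intro y hy
          rw [mem_image] at hy
          obtain ⟨x, hx, rfl⟩ := hy
          obtain ⟨x1, x2, x3, x4⟩ := hmem x hx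
          simp only [hg]
          rw [mem_product, mem_Icc, mem_Icc]
          have h5 : x.2 ≤ x.1 := Nat.le_of_dvd x1 x3
          have h6 : 0 < x.1 / x.2 := Nat.div_pos h5 x4
          have h7 : x.1 / x.2 ≤ x.1 := Nat.div_le_self _ _
          dsimp only
          omega
        · intro y _ _
          positivity
    _ = (∑ a ∈ Icc 1 Δ, 1 / (a : ℝ)) ^ 2 := by
        rw [sum_product, sq, sum_mul_sum]
    _ ≤ _ := pow_le_pow_left₀ (sum_nonneg fun _ _ => by positivity) (sum_inv Δ) 2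

/-- exchange of the sums -/
theorem swap (b Δ : ℕ) (T : ℕ → ℝ) (hT : ∀ e, 0 ≤ T e) (𝒟 : Finset ℕ)
    (h𝒟 : ∀ d ∈ 𝒟, 1 ≤ d ∧ d ≤ Δ ∧ Nat.Coprime d b) :
    ∑ d ∈ 𝒟, (kap d : ℝ) / d * ∑ e ∈ d.divisors.erase 1, T e ≤
      (1 + Real.log Δ) ^ 2 *
        ∑ e ∈ (Ioc 1 Δ).filter (fun e => Nat.Coprime e b), (kap e : ℝ) / e * T e := by
  rcases Nat.eq_zero_or_pos Δ with hΔ | hΔ
  · have : 𝒟 = ∅ := by
      rw [eq_empty_iff_forall_notMem]
      intro d hd
      have := h𝒟 d hd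
      omega
    rw [this, hΔ]
    simp
  have hlog : 0 ≤ Real.log Δ := Real.log_nonneg (by exact_mod_cast hΔ)
  calc ∑ d ∈ 𝒟, (kap d : ℝ) / d * ∑ e ∈ d.divisors.erase 1, T e =
      ∑ d ∈ 𝒟, ∑ e ∈ (Ioc 1 Δ).filter (fun e => Nat.Coprime e b), if e ∣ d then (kap d : ℝ) / d * T e else 0 := by
        apply sum_congr rfl
        intro d hd
        obtain ⟨h1, h2, h3⟩ := h𝒟 d hd
        rw [mul_sum, ← sum_filter]
        apply sum_congr _ (fun _ _ => rfl)
        ext e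
        rw [mem_erase, Nat.mem_divisors, mem_filter, mem_filter, mem_Ioc]
        constructor
        · rintro ⟨h4, h5, _⟩
          have h6 := Nat.le_of_dvd h1 h5
          have h7 := Nat.pos_of_dvd_of_pos h5 h1
          exact ⟨⟨⟨by omega, by omega⟩, Nat.Coprime.coprime_dvd_left h5 h3⟩, h5⟩
        · rintro ⟨⟨⟨h4, h5⟩, h6⟩, h7⟩
          exact ⟨by omega, h7, by omega⟩
    _ = ∑ e ∈ (Ioc 1 Δ).filter (fun e => Nat.Coprime e b), T e *
          ∑ d ∈ 𝒟.filter (fun d => e ∣ d), (kap d : ℝ) / d := by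
        rw [sum_comm]
        apply sum_congr rfl
        intro e _
        rw [← sum_filter, mul_sum]
        apply sum_congr rfl
        intro d _
        ring
    _ ≤ ∑ e ∈ (Ioc 1 Δ).filter (fun e => Nat.Coprime e b), T e *
          ((kap e : ℝ) / e * (1 + Real.log Δ) ^ 2) := by
        apply sum_le_sum
        intro e he
        rw [mem_filter, mem_Ioc] at he
        have he0 : 0 < e := by omega
        have her : (0 : ℝ) < e := by exact_mod_cast he0
        apply mul_le_mul_of_nonneg_left _ (hT e)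
        have h1 : ∀ d ∈ 𝒟.filter (fun d => e ∣ d), (kap d : ℝ) / d ≤
            (kap e : ℝ) / e * ((kap (d / e) : ℝ) / ((d / e : ℕ) : ℝ)) := by
          intro d hd
          rw [mem_filter] at hd
          obtain ⟨hd1, hd2⟩ := hd
          obtain ⟨h4, h5, h6⟩ := h𝒟 d hd1
          obtain ⟨f, rfl⟩ := hd2
          rw [Nat.mul_div_cancel_left f he0]
          have hf0 : f ≠ 0 := by
            rintro rfl
            omega
          have hfr : (0 : ℝ) < f := by exact_mod_cast Nat.pos_of_ne_zero hf0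
          rw [div_mul_div_comm]
          push_cast
          apply div_le_div_of_nonneg_right _ (by positivity)
          exact_mod_cast kap_mul e f he0.ne' hf0
        refine (sum_le_sum h1).trans ?_
        rw [← mul_sum]
        apply mul_le_mul_of_nonneg_left _ (by positivity)
        refine le_trans ?_ (sum_kap Δ)
        have hinj : Set.InjOn (fun d => d / e) (𝒟.filter (fun d => e ∣ d) : Finset ℕ) := by
          intro d hd d' hd' h
          rw [mem_coe, mem_filter] at hd hd'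
          simp only at h
          rw [← Nat.div_mul_cancel hd.2, ← Nat.div_mul_cancel hd'.2, h]
        calc ∑ d ∈ 𝒟.filter (fun d => e ∣ d), ((kap (d / e) : ℝ) / ((d / e : ℕ) : ℝ)) =
            ∑ f ∈ (𝒟.filter (fun d => e ∣ d)).image (fun d => d / e), ((kap f : ℝ) / (f : ℝ)) := by
              rw [sum_image (fun x hx y hy h => hinj hx hy h)]
          _ ≤ _ := by
              apply sum_le_sum_of_subset_of_nonneg
              · intro f hf
                rw [mem_image] at hf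
                obtain ⟨d, hd, rfl⟩ := hf
                rw [mem_filter] at hd
                obtain ⟨h4, h5, h6⟩ := h𝒟 d hd.1
                rw [mem_Icc]
                have h7 : e ≤ d := Nat.le_of_dvd h4 hd.2
                have h8 : 0 < d / e := Nat.div_pos h7 he0
                have h9 := Nat.div_le_self d e
                omega
              · intro f _ _
                positivity
    _ = _ := by
        rw [mul_sum]
        apply sum_congr rfl
        intro e _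
        ring

theorem swap_bound (b m : ℕ) (D : ℕ → Finset ℕ) (k : ℕ) (hD : ∀ i < k, D i ⊆ range b)
    (hm : ∀ i < k, 1 ≤ i → (range b \ D i).card ≤ m) (hmb : 2 * m + 2 ≤ b) (η σ : ℝ)
    (hη0 : 0 ≤ η) (hη1 : η ≤ 1) (hσ : 2 * η ≤ σ) (hσ1 : σ ≤ 1)
    (hL : ∑ t ∈ range b, gg b m t ≤ (b : ℝ) ^ η) (C : ℝ) (hC : 0 ≤ C)
    (hCk : ∀ e : ℕ, 1 ≤ e → (kap e : ℝ) / e ≤ C * (e : ℝ) ^ (-σ)) (Δ w Q : ℕ)
    (hQ : 1 + Q * w ≤ k) :
    ∑ e ∈ (Ioc 1 Δ).filter (fun e => Nat.Coprime e b), (kap e : ℝ) / e * TS b D k e ≤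
      C * (((b : ℝ) ^ w) ^ 2 * (1 - 1 / (b : ℝ) ^ 3) ^ Q +
        (Nat.clog 2 Δ : ℝ) * (4 * (b : ℝ) ^ 2 * (((b : ℝ) ^ w) ^ (-(σ - 2 * η)) +
          (Δ : ℝ) ^ (2 - σ) * ((b : ℝ) ^ k) ^ (η - 1)))) := by
  have hb0 : (2 : ℝ) ≤ b := by exact_mod_cast (by omega : 2 ≤ b)
  have h0 : (0 : ℝ) ≤ 1 - 1 / (b : ℝ) ^ 3 := by
    have : 1 / (b : ℝ) ^ 3 ≤ 1 := by
      rw [div_le_one (by positivity)]
      exact one_le_pow₀ (by linarith)
    linarith
  set E0 : ℕ := b ^ w with hE0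
  have hE01 : 1 ≤ E0 := Nat.pow_pos (by omega)
  have hE0r : ((b : ℝ) ^ w) = (E0 : ℝ) := by rw [hE0]; push_cast; rfl
  rw [hE0r]
  have hE0p : (0 : ℝ) ≤ E0 := Nat.cast_nonneg _
  have hnn : ∀ e : ℕ, 0 ≤ (e : ℝ) ^ (-σ) * TS b D k e := fun e =>
    mul_nonneg (by positivity) (TS_nonneg _ _ _ _)
  have h1 : ∑ e ∈ (Ioc 1 Δ).filter (fun e => Nat.Coprime e b), (kap e : ℝ) / e * TS b D k e ≤
      ∑ e ∈ (Ioc 1 Δ).filter (fun e => Nat.Coprime e b), C * ((e : ℝ) ^ (-σ) * TS b D k e) := by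
    apply sum_le_sum
    intro e he
    rw [mem_filter, mem_Ioc] at he
    rw [← mul_assoc]
    exact mul_le_mul_of_nonneg_right (hCk e (by omega)) (TS_nonneg _ _ _ _)
  refine h1.trans ?_
  rw [← mul_sum]
  apply mul_le_mul_of_nonneg_left _ hC
  have h2 : ∑ e ∈ (Ioc 1 E0).filter (fun e => Nat.Coprime e b), (e : ℝ) ^ (-σ) * TS b D k e ≤
      (E0 : ℝ) ^ 2 * (1 - 1 / (b : ℝ) ^ 3) ^ Q := by
    calc ∑ e ∈ (Ioc 1 E0).filter (fun e => Nat.Coprime e b), (e : ℝ) ^ (-σ) * TS b D k e ≤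
        ∑ e ∈ (Ioc 1 E0).filter (fun e => Nat.Coprime e b), (E0 : ℝ) * (1 - 1 / (b : ℝ) ^ 3) ^ Q := by
          apply sum_le_sum
          intro e he
          rw [mem_filter, mem_Ioc] at he
          have h3 := TS_small b m D k hD hm hmb e w (by omega) he.2 he.1.2 Q hQ
          have he1 : (1 : ℝ) ≤ e := by exact_mod_cast (by omega : 1 ≤ e)
          have h4 : (e : ℝ) ^ (-σ) ≤ 1 := Real.rpow_le_one_of_one_le_of_nonpos he1 (by linarith)
          have heE : (e : ℝ) ≤ E0 := by exact_mod_cast he.1.2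
          calc (e : ℝ) ^ (-σ) * TS b D k e ≤ 1 * (e * (1 - 1 / (b : ℝ) ^ 3) ^ Q) := by
                apply mul_le_mul h4 h3 (TS_nonneg _ _ _ _) (by norm_num)
            _ ≤ _ := by
                rw [one_mul]
                apply mul_le_mul_of_nonneg_right heE (by positivity)
      _ = (((Ioc 1 E0).filter (fun e => Nat.Coprime e b)).card : ℝ) * ((E0 : ℝ) * (1 - 1 / (b : ℝ) ^ 3) ^ Q) := by
          rw [sum_const, nsmul_eq_mul]
      _ ≤ (E0 : ℝ) * ((E0 : ℝ) * (1 - 1 / (b : ℝ) ^ 3) ^ Q) := by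
          apply mul_le_mul_of_nonneg_right _ (by positivity)
          have h5 := card_filter_le (Ioc 1 E0) (fun e => Nat.Coprime e b)
          rw [Nat.card_Ioc] at h5
          have h6 : ((Ioc 1 E0).filter (fun e => Nat.Coprime e b)).card ≤ E0 := by omega
          exact_mod_cast h6
      _ = _ := by ring
  have h3 := dyad b m D k hD hm (by omega) (by omega) η σ hη0 hη1 hσ hσ1 hL E0 Δ (Nat.clog 2 Δ) hE01
  have h4 : (Ioc 1 Δ).filter (fun e => Nat.Coprime e b) ⊆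
      (Ioc 1 E0).filter (fun e => Nat.Coprime e b) ∪
      (Ioc E0 (E0 * 2 ^ (Nat.clog 2 Δ))).filter (fun e => e ≤ Δ) := by
    intro e he
    rw [mem_filter, mem_Ioc] at he
    rw [mem_union, mem_filter, mem_filter, mem_Ioc, mem_Ioc]
    by_cases h : e ≤ E0
    · exact Or.inl ⟨⟨he.1.1, h⟩, he.2⟩
    · right
      have h5 : Δ ≤ 2 ^ (Nat.clog 2 Δ) := Nat.le_pow_clog (by norm_num) Δ
      have h6 : 2 ^ (Nat.clog 2 Δ) ≤ E0 * 2 ^ (Nat.clog 2 Δ) := Nat.le_mul_of_pos_left _ hE01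
      exact ⟨⟨by omega, by omega⟩, he.1.2⟩
  calc ∑ e ∈ (Ioc 1 Δ).filter (fun e => Nat.Coprime e b), (e : ℝ) ^ (-σ) * TS b D k e ≤
      ∑ e ∈ (Ioc 1 E0).filter (fun e => Nat.Coprime e b) ∪
      (Ioc E0 (E0 * 2 ^ (Nat.clog 2 Δ))).filter (fun e => e ≤ Δ), (e : ℝ) ^ (-σ) * TS b D k e :=
        sum_le_sum_of_subset_of_nonneg h4 fun e _ _ => hnn e
    _ ≤ (∑ e ∈ (Ioc 1 E0).filter (fun e => Nat.Coprime e b), (e : ℝ) ^ (-σ) * TS b D k e) +
        ∑ e ∈ (Ioc E0 (E0 * 2 ^ (Nat.clog 2 Δ))).filter (fun e => e ≤ Δ), (e : ℝ) ^ (-σ) * TS b D k e := by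
        have := sum_union_inter (s₁ := (Ioc 1 E0).filter (fun e => Nat.Coprime e b))
          (s₂ := (Ioc E0 (E0 * 2 ^ (Nat.clog 2 Δ))).filter (fun e => e ≤ Δ))
          (f := fun e : ℕ => (e : ℝ) ^ (-σ) * TS b D k e)
        have h4 : 0 ≤ ∑ e ∈ (Ioc 1 E0).filter (fun e => Nat.Coprime e b) ∩
          (Ioc E0 (E0 * 2 ^ (Nat.clog 2 Δ))).filter (fun e => e ≤ Δ),
          (e : ℝ) ^ (-σ) * TS b D k e := sum_nonneg fun e _ => hnn e
        linarith
    _ ≤ _ := add_le_add h2 h3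

end Pool.Agent.T3H29.DG
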