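import Mathlib

/-! Integers with restricted digits: exponential sums. -/

set_option autoImplicit false

open Finset

namespace Pool.Agent.T3H29.DG

/-- the integers below `b ^ k` whose digit at the place `i` is in `D i` for all `i < k` -/
def SD (b : ℕ) (D : ℕ → Finset ℕ) (k : ℕ) : Finset ℕ :=
  (range (b ^ k)).filter (fun n : ℕ => ∀ i < k, n / b ^ i % b ∈ D i)

theorem digit_low (b k i m t : ℕ) (hb : 0 < b) (hi : i < k) :
    (m + t * b ^ k) / b ^ i % b = m / b ^ i % b := by
  have h1 : t * b ^ k = b ^ i * (b * (t * b ^ (k - i - 1))) := by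
    have h2 : b ^ k = b ^ i * (b * b ^ (k - i - 1)) := by
      rw [← pow_succ', ← pow_add]
      congr 1
      omega
    rw [h2]
    ring
  rw [h1, Nat.add_mul_div_left _ _ (Nat.pow_pos hb), Nat.add_mul_mod_self_left]

theorem SD_succ {R : Type*} [AddCommMonoid R] (b : ℕ) (hb : 0 < b) (D : ℕ → Finset ℕ) (k : ℕ)
    (hD : D k ⊆ range b) (f : ℕ → R) :
    ∑ n ∈ SD b D (k + 1), f n = ∑ m ∈ SD b D k, ∑ t ∈ D k, f (m + t * b ^ k) := by
  have hp : 0 < b ^ k := Nat.pow_pos hb
  rw [← sum_product']
  refine sum_bij' (i := fun n _ => (n % b ^ k, n / b ^ k)) (j := fun p _ => p.1 + p.2 * b ^ k)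
    ?_ ?_ ?_ ?_ ?_
  · intro n hn
    unfold SD at hn ⊢
    rw [mem_filter, mem_range] at hn
    obtain ⟨h1, h2⟩ := hn
    rw [mem_product, mem_filter, mem_range]
    refine ⟨⟨Nat.mod_lt _ hp, ?_⟩, ?_⟩
    · intro i hi
      have h3 := h2 i (by omega)
      have h4 : n % b ^ k + n / b ^ k * b ^ k = n := by
        rw [mul_comm]
        exact Nat.mod_add_div _ _
      have h5 := digit_low b k i (n % b ^ k) (n / b ^ k) hb hi
      rw [h4] at h5
      rw [← h5]
      exact h3
    · have h3 := h2 k (by omega)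
      rw [pow_succ] at h1
      have h4 : n / b ^ k < b := by
        rw [Nat.div_lt_iff_lt_mul hp, mul_comm]
        exact h1
      rwa [Nat.mod_eq_of_lt h4] at h3
  · intro p hq
    rw [mem_product] at hq
    obtain ⟨h1, h2⟩ := hq
    unfold SD at h1 ⊢
    rw [mem_filter, mem_range] at h1 ⊢
    obtain ⟨h3, h4⟩ := h1
    have h5 : p.2 < b := mem_range.1 (hD h2)
    constructor
    · rw [pow_succ]
      calc p.1 + p.2 * b ^ k < b ^ k + p.2 * b ^ k := by omega
        _ = (p.2 + 1) * b ^ k := by ring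
        _ ≤ b * b ^ k := Nat.mul_le_mul_right _ h5
        _ = b ^ k * b := mul_comm _ _
    · intro i hi
      rcases Nat.lt_succ_iff_lt_or_eq.1 hi with h6 | h6
      · rw [digit_low b k i p.1 p.2 hb h6]
        exact h4 i h6
      · rw [h6, Nat.add_mul_div_right _ _ hp, Nat.div_eq_of_lt h3, zero_add, Nat.mod_eq_of_lt h5]
        exact h2
  · intro n _
    show n % b ^ k + n / b ^ k * b ^ k = n
    rw [mul_comm]
    exact Nat.mod_add_div _ _
  · intro p hq
    rw [mem_product] at hq
    have h3 : p.1 < b ^ k := by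
      have := hq.1
      unfold SD at this
      rw [mem_filter, mem_range] at this
      exact this.1
    ext
    · show (p.1 + p.2 * b ^ k) % b ^ k = p.1
      rw [Nat.add_mul_mod_self_right, Nat.mod_eq_of_lt h3]
    · show (p.1 + p.2 * b ^ k) / b ^ k = p.2
      rw [Nat.add_mul_div_right _ _ hp, Nat.div_eq_of_lt h3, zero_add]
  · intro n _
    show f n = f (n % b ^ k + n / b ^ k * b ^ k)
    congr 1
    rw [mul_comm]
    exact (Nat.mod_add_div _ _).symm

/-- sums of products of functions of the digits -/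
theorem sum_prod {R : Type*} [CommSemiring R] (b : ℕ) (hb : 0 < b) (D : ℕ → Finset ℕ)
    (φ : ℕ → ℕ → R) (k : ℕ) (hD : ∀ i < k, D i ⊆ range b) :
    ∑ n ∈ SD b D k, ∏ i ∈ range k, φ i (n / b ^ i % b) = ∏ i ∈ range k, ∑ t ∈ D i, φ i t := by
  induction k with
  | zero =>
    have : SD b D 0 = {0} := by
      unfold SD
      ext n
      simp
    rw [this]
    simp
  | succ k ih =>
    rw [SD_succ b hb D k (hD k (by omega)), prod_range_succ, ← ih (fun i hi => hD i (by omega)),
      sum_mul]
    apply sum_congr rfl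
    intro m hm
    rw [mul_sum]
    apply sum_congr rfl
    intro t ht
    have h3 : m < b ^ k := by
      unfold SD at hm
      rw [mem_filter, mem_range] at hm
      exact hm.1
    have h5 : t < b := mem_range.1 (hD k (by omega) ht)
    rw [prod_range_succ]
    congr 1
    · apply prod_congr rfl
      intro i hi
      rw [digit_low b k i m t hb (mem_range.1 hi)]
    · rw [Nat.add_mul_div_right _ _ (Nat.pow_pos hb), Nat.div_eq_of_lt h3, zero_add,
        Nat.mod_eq_of_lt h5]

theorem card_SD (b : ℕ) (hb : 0 < b) (D : ℕ → Finset ℕ) (k : ℕ) (hD : ∀ i < k, D i ⊆ range b) :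
    (SD b D k).card = ∏ i ∈ range k, (D i).card := by
  have := sum_prod (R := ℕ) b hb D (fun _ _ => 1) k hD
  simpa using this

/-- `exp (2 π i x)` -/
noncomputable def ee (x : ℝ) : ℂ := Complex.exp (2 * Real.pi * x * Complex.I)

theorem ee_add (x y : ℝ) : ee (x + y) = ee x * ee y := by
  unfold ee
  rw [← Complex.exp_add]
  congr 1
  push_cast
  ring

theorem ee_int (n : ℤ) : ee (n : ℝ) = 1 := by
  unfold ee
  rw [Complex.exp_eq_one_iff]
  exact ⟨n, by push_cast; ring⟩

theorem norm_ee (x : ℝ) : ‖ee x‖ = 1 := by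
  unfold ee
  rw [show (2 * Real.pi * x * Complex.I : ℂ) = ((2 * Real.pi * x : ℝ) : ℂ) * Complex.I by push_cast; ring]
  exact Complex.norm_exp_ofReal_mul_I _

theorem ee_zero : ee 0 = 1 := by
  have := ee_int 0
  simpa using this

theorem ee_nat_mul (n : ℕ) (x : ℝ) : ee (n * x) = ee x ^ n := by
  induction n with
  | zero => simp [ee_zero]
  | succ n ih =>
    rw [pow_succ, ← ih, ← ee_add]
    congr 1
    push_cast
    ring

theorem ee_add_int (x : ℝ) (n : ℤ) : ee (x + n) = ee x := by
  rw [ee_add, ee_int, mul_one]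

/-- the exponential sum over the integers with restricted digits -/
noncomputable def ES (b : ℕ) (D : ℕ → Finset ℕ) (k : ℕ) (θ : ℝ) : ℂ := ∑ n ∈ SD b D k, ee (n * θ)

theorem ES_eq (b : ℕ) (hb : 0 < b) (D : ℕ → Finset ℕ) (k : ℕ) (hD : ∀ i < k, D i ⊆ range b) (θ : ℝ) :
    ES b D k θ = ∏ i ∈ range k, ∑ t ∈ D i, ee (t * ((b : ℝ) ^ i * θ)) := by
  unfold ES
  induction k with
  | zero =>
    have : SD b D 0 = {0} := by
      unfold SD
      ext n
      simp
    rw [this]
    simp [ee_zero]
  | succ k ih =>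
    rw [SD_succ b hb D k (hD k (by omega)), prod_range_succ, ← ih (fun i hi => hD i (by omega)),
      sum_mul]
    apply sum_congr rfl
    intro m _
    rw [mul_sum]
    apply sum_congr rfl
    intro t _
    rw [← ee_add]
    congr 1
    push_cast
    ring

/-- `|sin (π x)| ≥ 2 min (x, 1 - x)` -/
theorem sin_ge (x s : ℝ) (hs : 0 ≤ s) (h1 : s ≤ x) (h2 : x ≤ 1 - s) : 2 * s ≤ Real.sin (Real.pi * x) := by
  have hpi := Real.pi_pos
  rcases le_total x (1 / 2) with h | h
  · have h3 := Real.mul_le_sin (x := Real.pi * x) (by nlinarith) (by nlinarith)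
    have h4 : 2 / Real.pi * (Real.pi * x) = 2 * x := by field_simp
    linarith
  · have h3 := Real.mul_le_sin (x := Real.pi * (1 - x)) (by nlinarith) (by nlinarith)
    have h4 : 2 / Real.pi * (Real.pi * (1 - x)) = 2 * (1 - x) := by field_simp
    have h5 : Real.sin (Real.pi * (1 - x)) = Real.sin (Real.pi * x) := by
      rw [show Real.pi * (1 - x) = Real.pi - Real.pi * x by ring, Real.sin_pi_sub]
    linarith

theorem norm_ee_sub_one (x : ℝ) : ‖ee x - 1‖ = 2 * |Real.sin (Real.pi * x)| := by
  have h1 : ee x = Complex.exp (((2 * (Real.pi * x) : ℝ) : ℂ) * Complex.I) := by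
    unfold ee
    congr 1
    push_cast
    ring
  rw [h1, mul_comm _ Complex.I, Complex.norm_exp_I_mul_ofReal_sub_one]
  rw [show 2 * (Real.pi * x) / 2 = Real.pi * x by ring, norm_mul, Real.norm_eq_abs, Real.norm_eq_abs,
    abs_of_pos (by norm_num : (0 : ℝ) < 2)]

theorem geom (b : ℕ) (x : ℝ) (s : ℝ) (hs : 0 < s) (h1 : s ≤ x) (h2 : x ≤ 1 - s) :
    ‖∑ t ∈ range b, ee (t * x)‖ ≤ 1 / (2 * s) := by
  have h3 := sin_ge x s hs.le h1 h2
  have h4 : 4 * s ≤ ‖ee x - 1‖ := by
    rw [norm_ee_sub_one]
    have := le_abs_self (Real.sin (Real.pi * x))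
    linarith
  have h5 : (∑ t ∈ range b, ee (t * x)) * (ee x - 1) = ee (b * x) - 1 := by
    rw [ee_nat_mul, ← geom_sum_mul]
    congr 1
    apply sum_congr rfl
    intro t _
    exact ee_nat_mul t x
  have h6 : ‖∑ t ∈ range b, ee (t * x)‖ * ‖ee x - 1‖ ≤ 2 := by
    rw [← norm_mul, h5]
    calc ‖ee (b * x) - 1‖ ≤ ‖ee (b * x)‖ + ‖(1 : ℂ)‖ := norm_sub_le _ _
      _ = 2 := by rw [norm_ee, norm_one]; norm_num
  rw [le_div_iff₀ (by positivity)]
  have h7 := norm_nonneg (∑ t ∈ range b, ee (t * x))
  nlinarith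

/-- the bound for the exponential sum over the digits, `b` times normalised -/
noncomputable def gg (b m t : ℕ) : ℝ :=
  if t = 0 ∨ t = b - 1 then 1 else (m + b / 2 * (1 / t + 1 / ((b - 1 - t : ℕ) : ℝ))) / ((b : ℝ) - m)

/-- the normalised exponential sum over the digits at one place -/
noncomputable def ff (D : Finset ℕ) (x : ℝ) : ℝ := ‖∑ t ∈ D, ee (t * x)‖ / D.card

theorem ff_nonneg (D : Finset ℕ) (x : ℝ) : 0 ≤ ff D x := by
  unfold ff
  positivity

theorem ff_le_one (D : Finset ℕ) (x : ℝ) : ff D x ≤ 1 := by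
  unfold ff
  apply div_le_one_of_le₀ _ (Nat.cast_nonneg _)
  calc ‖∑ t ∈ D, ee (t * x)‖ ≤ ∑ t ∈ D, ‖ee (t * x)‖ := norm_sum_le _ _
    _ = D.card := by simp [norm_ee]

theorem ff_add_int (D : Finset ℕ) (x : ℝ) (n : ℤ) : ff D (x + n) = ff D x := by
  unfold ff
  congr 2
  apply sum_congr rfl
  intro t _
  have : (t : ℝ) * (x + n) = t * x + ((t * n : ℤ) : ℝ) := by push_cast; ring
  rw [this, ee_add_int]

theorem ff_le_gg (b m : ℕ) (D : Finset ℕ) (hD : D ⊆ range b) (hm : (range b \ D).card ≤ m) (hmb : 2 * m < b)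
    (t : ℕ) (ht : t < b) (v : ℝ) (hv : 0 ≤ v) (hv1 : v < 1) : ff D ((t + v) / b) ≤ gg b m t := by
  unfold gg
  split_ifs with h
  · exact ff_le_one _ _
  · push Not at h
    have hb0 : (0 : ℝ) < b := by exact_mod_cast (by omega : 0 < b)
    have hmb' : 2 * (m : ℝ) < b := by exact_mod_cast hmb
    have ht1 : 1 ≤ t := Nat.pos_of_ne_zero h.1
    have ht2 : 1 ≤ b - 1 - t := by omega
    obtain ⟨u, hu⟩ : ∃ u, u = b - 1 - t := ⟨_, rfl⟩
    rw [← hu] at ht2 ⊢
    have hut : (u : ℝ) + t + 1 = b := by
      have : u + t + 1 = b := by omega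
      exact_mod_cast this
    have ht1r : (1 : ℝ) ≤ t := by exact_mod_cast ht1
    have hu1r : (1 : ℝ) ≤ u := by exact_mod_cast ht2
    set x : ℝ := (t + v) / b with hx
    have hxt : (t : ℝ) / b ≤ x := by
      rw [hx]
      apply div_le_div_of_nonneg_right _ hb0.le
      linarith
    have hxu : x ≤ 1 - u / b := by
      rw [hx, div_le_iff₀ hb0, sub_mul, div_mul_cancel₀ _ hb0.ne']
      linarith
    have hfull : ‖∑ t ∈ range b, ee (t * x)‖ ≤ b / 2 * (1 / t + 1 / u) := by
      have hmin : 0 < min (t : ℝ) u := lt_min (by linarith) (by linarith)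
      have h3 := geom b x (min (t : ℝ) u / b) (by positivity)
        (le_trans (div_le_div_of_nonneg_right (min_le_left _ _) hb0.le) hxt)
        (hxu.trans (by
          have := div_le_div_of_nonneg_right (min_le_right (t : ℝ) u) hb0.le
          linarith))
      refine h3.trans ?_
      rcases le_total (t : ℝ) u with h4 | h4
      · rw [min_eq_left h4]
        have : (1 : ℝ) / (2 * (t / b)) = b / 2 * (1 / t) := by field_simp
        rw [this]
        apply mul_le_mul_of_nonneg_left _ (by positivity)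
        have : (0 : ℝ) ≤ 1 / u := by positivity
        linarith
      · rw [min_eq_right h4]
        have : (1 : ℝ) / (2 * (u / b)) = b / 2 * (1 / u) := by field_simp
        rw [this]
        apply mul_le_mul_of_nonneg_left _ (by positivity)
        have : (0 : ℝ) ≤ 1 / t := by positivity
        linarith
    have hsplit : ∑ t ∈ D, ee (t * x) = ∑ t ∈ range b, ee (t * x) - ∑ t ∈ range b \ D, ee (t * x) := by
      rw [← sum_sdiff hD]
      ring
    have hnorm : ‖∑ t ∈ D, ee (t * x)‖ ≤ m + b / 2 * (1 / t + 1 / u) := by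
      rw [hsplit]
      calc _ ≤ ‖∑ t ∈ range b, ee (t * x)‖ + ‖∑ t ∈ range b \ D, ee (t * x)‖ := norm_sub_le _ _
        _ ≤ b / 2 * (1 / t + 1 / u) + m := by
            apply add_le_add hfull
            calc ‖∑ t ∈ range b \ D, ee (t * x)‖ ≤ ∑ t ∈ range b \ D, ‖ee (t * x)‖ := norm_sum_le _ _
              _ = ((range b \ D).card : ℝ) := by simp [norm_ee]
              _ ≤ m := by exact_mod_cast hm
        _ = _ := by ring
    have hcard : (b : ℝ) - m ≤ D.card := by
      have h6 : D.card + (range b \ D).card = b := by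
        have := card_sdiff_add_card_eq_card hD
        rw [card_range] at this
        omega
      have h7 : b ≤ D.card + m := by omega
      have : (b : ℝ) ≤ D.card + m := by exact_mod_cast h7
      linarith
    have hpos : 0 < (b : ℝ) - m := by
      have : (0 : ℝ) ≤ m := Nat.cast_nonneg _
      linarith
    unfold ff
    exact div_le_div₀ (by positivity) hnorm hpos hcard

theorem gg_nonneg (b m t : ℕ) (hmb : 2 * m < b) : 0 ≤ gg b m t := by
  unfold gg
  split_ifs
  · norm_num
  · have : (2 : ℝ) * m < b := by exact_mod_cast hmb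
    have h2 : (0 : ℝ) ≤ m := Nat.cast_nonneg _
    apply div_nonneg (by positivity) (by linarith)

theorem sum_gg (b m : ℕ) (hmb : 2 * m < b) :
    ∑ t ∈ range b, gg b m t ≤ 2 * (m + 2 + Real.log b) + 2 := by
  have hb0 : (0 : ℝ) < b := by exact_mod_cast (by omega : 0 < b)
  have hmb' : 2 * (m : ℝ) < b := by exact_mod_cast hmb
  have hm0 : (0 : ℝ) ≤ m := Nat.cast_nonneg _
  have hpos : 0 < (b : ℝ) - m := by linarith
  have hterm : ∀ t ∈ range b, gg b m t ≤ ((if t = 0 then 1 else 0) + (if t = b - 1 then 1 else 0)) +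
      (m + b / 2 * ((if t = 0 then 0 else 1 / (t : ℝ)) + (if t = b - 1 then 0 else 1 / ((b - 1 - t : ℕ) : ℝ)))) /
        ((b : ℝ) - m) := by
    intro t _
    have h0 : 0 ≤ (m + b / 2 * ((if t = 0 then 0 else 1 / (t : ℝ)) +
        (if t = b - 1 then 0 else 1 / ((b - 1 - t : ℕ) : ℝ)))) / ((b : ℝ) - m) := by
      apply div_nonneg _ hpos.le
      apply add_nonneg hm0
      apply mul_nonneg (by positivity)
      apply add_nonneg <;> split_ifs <;> positivity
    unfold gg
    by_cases h1 : t = 0
    · rw [if_pos (Or.inl h1), if_pos h1]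
      have : (0 : ℝ) ≤ if t = b - 1 then 1 else 0 := by split_ifs <;> norm_num
      linarith
    · by_cases h2 : t = b - 1
      · rw [if_pos (Or.inr h2), if_neg h1, if_pos h2]
        rw [if_neg h1, if_pos h2] at h0
        rw [if_neg h1, if_pos h2]
        linarith
      · rw [if_neg (by tauto), if_neg h1, if_neg h2, if_neg h1, if_neg h2]
        linarith
  have hH : ∀ n : ℕ, ∑ t ∈ range n, (if t = 0 then 0 else 1 / (t : ℝ)) ≤ 1 + Real.log b ∨ b < n := by
    intro n
    by_cases hn : b < n
    · exact Or.inr hn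
    · left
      push Not at hn
      have h1 : ∑ t ∈ range n, (if t = 0 then 0 else 1 / (t : ℝ)) ≤ (harmonic b : ℝ) := by
        have h2 : (harmonic b : ℝ) = ∑ t ∈ range b, 1 / ((t : ℝ) + 1) := by
          unfold harmonic
          push_cast
          apply sum_congr rfl
          intro t _
          rw [one_div]
        rw [h2]
        rcases Nat.eq_zero_or_pos n with hn0 | hn0
        · rw [hn0]
          simp only [range_zero, sum_empty]
          positivity
        · obtain ⟨n', rfl⟩ : ∃ n', n = n' + 1 := ⟨n - 1, by omega⟩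
          rw [sum_range_succ']
          simp only [if_true, add_zero]
          calc ∑ t ∈ range n', (if t + 1 = 0 then (0 : ℝ) else 1 / ((t + 1 : ℕ) : ℝ)) =
              ∑ t ∈ range n', 1 / ((t : ℝ) + 1) := by
                apply sum_congr rfl
                intro t _
                rw [if_neg (by omega)]
                push_cast
                rfl
            _ ≤ ∑ t ∈ range b, 1 / ((t : ℝ) + 1) := by
                apply sum_le_sum_of_subset_of_nonneg
                · exact range_mono (by omega)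
                · intro t _ _
                  positivity
      have h3 := harmonic_le_one_add_log b
      linarith
  have hH1 : ∑ t ∈ range b, (if t = 0 then 0 else 1 / (t : ℝ)) ≤ 1 + Real.log b := by
    rcases hH b with h | h
    · exact h
    · omega
  have hH2 : ∑ t ∈ range b, (if t = b - 1 then 0 else 1 / ((b - 1 - t : ℕ) : ℝ)) ≤ 1 + Real.log b := by
    have h1 : ∑ t ∈ range b, (if t = b - 1 then 0 else 1 / ((b - 1 - t : ℕ) : ℝ)) =
        ∑ t ∈ range b, (if t = 0 then 0 else 1 / (t : ℝ)) := by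
      rw [← sum_range_reflect]
      apply sum_congr rfl
      intro t ht
      rw [mem_range] at ht
      by_cases h2 : t = 0
      · rw [if_pos (by omega), if_pos h2]
      · rw [if_neg (by omega), if_neg h2]
        congr 2
        omega
    rw [h1]
    exact hH1
  have hE1 : ∑ t ∈ range b, (if t = 0 then (1 : ℝ) else 0) ≤ 1 := by
    rw [sum_ite_eq' (range b) 0 (fun _ => (1 : ℝ))]
    split_ifs <;> norm_num
  have hE2 : ∑ t ∈ range b, (if t = b - 1 then (1 : ℝ) else 0) ≤ 1 := by
    rw [sum_ite_eq' (range b) (b - 1) (fun _ => (1 : ℝ))]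
    split_ifs <;> norm_num
  calc ∑ t ∈ range b, gg b m t ≤ _ := sum_le_sum hterm
    _ = (∑ t ∈ range b, (if t = 0 then (1 : ℝ) else 0)) + (∑ t ∈ range b, (if t = b - 1 then (1 : ℝ) else 0)) +
        (b * m + b / 2 * ((∑ t ∈ range b, (if t = 0 then 0 else 1 / (t : ℝ))) +
          ∑ t ∈ range b, (if t = b - 1 then 0 else 1 / ((b - 1 - t : ℕ) : ℝ)))) / ((b : ℝ) - m) := by
        rw [sum_add_distrib, sum_add_distrib, ← sum_div, sum_add_distrib, ← mul_sum, sum_add_distrib]
        simp
    _ ≤ 1 + 1 + (b * m + b / 2 * ((1 + Real.log b) + (1 + Real.log b))) / ((b : ℝ) - m) := by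
        gcongr
    _ ≤ 1 + 1 + 2 * (m + 2 + Real.log b) := by
        have hlog : 0 ≤ Real.log b := Real.log_nonneg (by exact_mod_cast (by omega : 1 ≤ b))
        have : (b * m + b / 2 * ((1 + Real.log b) + (1 + Real.log b))) / ((b : ℝ) - m) ≤
            2 * (m + 2 + Real.log b) := by
          rw [div_le_iff₀ hpos]
          nlinarith
        linarith
    _ = _ := by ring

end Pool.Agent.T3H29.DG
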