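import Pool.Agent.Y882.SI.Quad
import Pool.Agent.Y882.PX.MainX

/-! Residues at which `x ^ 2 + a` is coprime to the modulus. -/

set_option autoImplicit false

open Finset Polynomial Filter

namespace Pool.Agent.T3H29.DG

open Pool.Agent.Y882.PX
open Pool.Agent.Y882.SI
open Pool.Agent.H475R2.BH

theorem unit_count (a : ℤ) (b : ℕ) (hb : 0 < b) :
    (((range b).filter (fun x : ℕ => Nat.Coprime ((x : ℤ) ^ 2 + a).natAbs b)).card : ℝ) =
      b * ∏ p ∈ b.primeFactors, (1 - (ro (QF a) 0 p : ℝ) / p) := by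
  classical
  have hprime : ∀ p ∈ b.primeFactors, p.Prime := fun p hp => Nat.prime_of_mem_primeFactors hp
  have h1 : ∀ x : ℕ, (if Nat.Coprime ((x : ℤ) ^ 2 + a).natAbs b then (1 : ℝ) else 0) =
      ∏ p ∈ b.primeFactors, (1 + -(if p ∣ ((x : ℤ) ^ 2 + a).natAbs then (1 : ℝ) else 0)) := by
    intro x
    split_ifs with h
    · symm
      apply prod_eq_one
      intro p hp
      have h2 : ¬ p ∣ ((x : ℤ) ^ 2 + a).natAbs := by
        intro h3
        have h4 : p ∣ 1 := by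
          rw [← h]
          exact Nat.dvd_gcd h3 (Nat.dvd_of_mem_primeFactors hp)
        exact (hprime p hp).one_lt.ne' (Nat.dvd_one.1 h4)
      rw [if_neg h2]
      norm_num
    · symm
      obtain ⟨p, hp, hp1, hp2⟩ := Nat.Prime.not_coprime_iff_dvd.1 h
      apply prod_eq_zero (Nat.mem_primeFactors.2 ⟨hp, hp2, hb.ne'⟩)
      rw [if_pos hp1]
      norm_num
  rw [card_filter]
  push_cast
  rw [sum_congr rfl (fun x _ => h1 x)]
  have h2 : ∀ x : ℕ, ∏ p ∈ b.primeFactors, (1 + -(if p ∣ ((x : ℤ) ^ 2 + a).natAbs then (1 : ℝ) else 0)) =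
      ∑ T ∈ b.primeFactors.powerset, (-1) ^ T.card *
        (if (∏ p ∈ T, p) ∣ ((x : ℤ) ^ 2 + a).natAbs then (1 : ℝ) else 0) := by
    intro x
    rw [prod_one_add]
    apply sum_congr rfl
    intro T hT
    rw [mem_powerset] at hT
    rw [← prod_ind T (fun p hp => hprime p (hT hp)), prod_neg]
  rw [sum_congr rfl (fun x _ => h2 x), sum_comm]
  have h3 : ∀ T ∈ b.primeFactors.powerset, ∑ x ∈ range b, (-1 : ℝ) ^ T.card *
        (if (∏ p ∈ T, p) ∣ ((x : ℤ) ^ 2 + a).natAbs then (1 : ℝ) else 0) =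
      b * ∏ p ∈ T, (-((ro (QF a) 0 p : ℝ) / p)) := by
    intro T hT
    rw [mem_powerset] at hT
    have hTp : ∀ p ∈ T, p.Prime := fun p hp => hprime p (hT hp)
    obtain ⟨d, hd⟩ : ∃ d, d = ∏ p ∈ T, p := ⟨_, rfl⟩
    have hd0 : 0 < d := by
      rw [hd]
      exact prod_pos fun p hp => (hTp p hp).pos
    have hdb : d ∣ b := by
      rw [hd]
      exact (prod_dvd_prod_of_subset _ _ _ hT).trans (Nat.prod_primeFactors_dvd b)
    obtain ⟨t, ht⟩ := hdb
    rw [← mul_sum, ← hd]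
    have h4 : ∑ x ∈ range b, (if d ∣ ((x : ℤ) ^ 2 + a).natAbs then (1 : ℝ) else 0) = t * ro (QF a) 0 d := by
      have h5 := count_mul (QF a + C 0) d t
      rw [← ht] at h5
      have h6 : ∑ x ∈ range b, (if d ∣ ((x : ℤ) ^ 2 + a).natAbs then (1 : ℝ) else 0) =
          (((range b).filter (fun k : ℕ => (d : ℤ) ∣ (QF a + C 0).eval (k : ℤ))).card : ℝ) := by
        rw [card_filter]
        push_cast
        apply sum_congr rfl
        intro x _
        have h7 : ((d : ℤ) ∣ (QF a + C 0).eval (x : ℤ)) ↔ d ∣ ((x : ℤ) ^ 2 + a).natAbs := by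
          rw [eval_add, eval_C, add_zero, QF_eval, Int.natCast_dvd]
        by_cases h8 : d ∣ ((x : ℤ) ^ 2 + a).natAbs
        · rw [if_pos h8, if_pos (h7.2 h8)]
        · rw [if_neg h8, if_neg (fun h => h8 (h7.1 h))]
      rw [h6, h5]
      push_cast
      rfl
    rw [h4, prod_neg, prod_div_distrib]
    have h5 : (∏ p ∈ T, (ro (QF a) 0 p : ℝ)) = ro (QF a) 0 d := by
      rw [hd, ro_prod (QF a) 0 T hTp]
      push_cast
      rfl
    have h6 : (∏ p ∈ T, (p : ℝ)) = d := by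
      rw [hd]
      push_cast
      rfl
    rw [h5, h6, ht]
    have hdr : (d : ℝ) ≠ 0 := by exact_mod_cast hd0.ne'
    push_cast
    field_simp
  rw [sum_congr rfl h3, ← mul_sum]
  congr 1
  have h4 := prod_one_add (f := fun p => (-((ro (QF a) 0 p : ℝ) / p))) (s := b.primeFactors)
  rw [← h4]
  apply prod_congr rfl
  intro p _
  ring

theorem unit_ge (a : ℤ) (b : ℕ) (hb : 0 < b) :
    (b : ℝ) ≤ (3 : ℝ) ^ b.primeFactors.card *
      (((range b).filter (fun x : ℕ => Nat.Coprime ((x : ℤ) ^ 2 + a).natAbs b)).card : ℝ) := by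
  rw [unit_count a b hb]
  have h1 : (1 / 3 : ℝ) ^ b.primeFactors.card ≤ ∏ p ∈ b.primeFactors, (1 - (ro (QF a) 0 p : ℝ) / p) := by
    rw [← prod_const]
    apply Finset.prod_le_prod
    · intro p _
      norm_num
    · intro p hp
      have hpp := Nat.prime_of_mem_primeFactors hp
      have hp0 : (0 : ℝ) < p := by exact_mod_cast hpp.pos
      have h2 : (ro (QF a) 0 p : ℝ) / p ≤ 2 / 3 := by
        rw [div_le_iff₀ hp0]
        by_cases h2 : p = 2
        · subst h2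
          rw [ro_quad_two]
          norm_num
        · have h3 : 3 ≤ p := by
            have := hpp.two_le
            omega
          have h4 : (3 : ℝ) ≤ p := by exact_mod_cast h3
          have h5 : (ro (QF a) 0 p : ℝ) ≤ 2 := by exact_mod_cast ro_quad_le a p hpp
          linarith
      linarith
  calc (b : ℝ) = 3 ^ b.primeFactors.card * (b * (1 / 3 : ℝ) ^ b.primeFactors.card) := by
        rw [one_div, inv_pow]
        field_simp
    _ ≤ _ := by gcongr

/-- for large `b`, a set which contains all but `b ^ μ` residues contains one at which the value is coprime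
to the modulus -/
theorem unit_ex (a : ℤ) (μ : ℝ) (hμ : μ < 1) : ∃ b0 : ℕ, ∀ b : ℕ, b0 ≤ b → ∀ D : Finset ℕ,
    ((range b \ D).card : ℝ) ≤ (b : ℝ) ^ μ → ∃ x ∈ D, x < b ∧ Nat.Coprime ((x : ℤ) ^ 2 + a).natAbs b := by
  obtain ⟨C, hC1, hC⟩ := pow_card_le 3 ((1 - μ) / 2) (by linarith)
  have ev : ∀ᶠ b : ℕ in atTop, 2 * C ≤ (b : ℝ) ^ ((1 - μ) / 2) :=
    ((tendsto_rpow_atTop (by linarith)).comp tendsto_natCast_atTop_atTop).eventually_ge_atTop _
  obtain ⟨b1, hb1⟩ := eventually_atTop.1 (ev.and (eventually_ge_atTop 1))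
  refine ⟨b1, fun b hb D hD => ?_⟩
  obtain ⟨e1, e2⟩ := hb1 b hb
  have hbr : (0 : ℝ) < b := by exact_mod_cast e2
  by_contra hcon
  push Not at hcon
  have h1 : (range b).filter (fun x : ℕ => Nat.Coprime ((x : ℤ) ^ 2 + a).natAbs b) ⊆ range b \ D := by
    intro x hx
    rw [mem_filter] at hx
    rw [Finset.mem_sdiff]
    exact ⟨hx.1, fun h => hcon x h (mem_range.1 hx.1) hx.2⟩
  have h2 : (((range b).filter (fun x : ℕ => Nat.Coprime ((x : ℤ) ^ 2 + a).natAbs b)).card : ℝ) ≤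
      (b : ℝ) ^ μ := le_trans (by exact_mod_cast card_le_card h1) hD
  have h3 := unit_ge a b e2
  have h4 := hC b.primeFactors (fun p hp => Nat.prime_of_mem_primeFactors hp)
  have h5 : ((∏ p ∈ b.primeFactors, p : ℕ) : ℝ) ^ ((1 - μ) / 2) ≤ (b : ℝ) ^ ((1 - μ) / 2) := by
    apply Real.rpow_le_rpow (Nat.cast_nonneg _) _ (by linarith)
    exact_mod_cast Nat.le_of_dvd (by omega) (Nat.prod_primeFactors_dvd b)
  have h6 : (3 : ℝ) ^ b.primeFactors.card ≤ C * (b : ℝ) ^ ((1 - μ) / 2) := by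
    refine le_trans ?_ (mul_le_mul_of_nonneg_left h5 (by linarith))
    exact_mod_cast h4
  have h7 : (b : ℝ) ≤ (C * (b : ℝ) ^ ((1 - μ) / 2)) * (b : ℝ) ^ μ :=
    h3.trans (mul_le_mul h6 h2 (Nat.cast_nonneg _) (by positivity))
  have h8 : (b : ℝ) = (b : ℝ) ^ ((1 - μ) / 2) * ((b : ℝ) ^ ((1 - μ) / 2) * (b : ℝ) ^ μ) := by
    rw [← Real.rpow_add hbr, ← Real.rpow_add hbr]
    have : (1 - μ) / 2 + ((1 - μ) / 2 + μ) = 1 := by ring
    rw [this, Real.rpow_one]
  have h9 : 0 < (b : ℝ) ^ ((1 - μ) / 2) * (b : ℝ) ^ μ := by positivity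
  have h10 : (2 * C) * ((b : ℝ) ^ ((1 - μ) / 2) * (b : ℝ) ^ μ) ≤ b :=
    le_trans (mul_le_mul_of_nonneg_right e1 h9.le) (le_of_eq h8.symm)
  have h11 : (C * (b : ℝ) ^ ((1 - μ) / 2)) * (b : ℝ) ^ μ = C * ((b : ℝ) ^ ((1 - μ) / 2) * (b : ℝ) ^ μ) := by
    ring
  rw [h11] at h7
  have h12 : 0 < C * ((b : ℝ) ^ ((1 - μ) / 2) * (b : ℝ) ^ μ) := mul_pos (by linarith) h9
  linarith

end Pool.Agent.T3H29.DG
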