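import Pool.Agent.T3H29.DG.Main
import Pool.Agent.T3H29.DG.Unit

/-! Almost prime values of `n ^ 2 + a` with `n` an integer with restricted digits: assembly. -/

set_option autoImplicit false

open Finset Polynomial Filter

namespace Pool.Agent.T3H29.DG

open Pool.Agent.Y882.KW

theorem ev_base (μ η : ℝ) (hμ0 : 0 < μ) (hμη : μ < η) (hη : η < 1) : ∃ b0 : ℕ, ∀ b : ℕ, b0 ≤ b →
    2 * ⌊(b : ℝ) ^ μ⌋₊ + 2 ≤ b ∧ ∑ t ∈ range b, gg b ⌊(b : ℝ) ^ μ⌋₊ t ≤ (b : ℝ) ^ η := by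
  have ev1 : ∀ᶠ b : ℕ in atTop, (4 : ℝ) ≤ (b : ℝ) ^ (η - μ) :=
    ((tendsto_rpow_atTop (by linarith)).comp tendsto_natCast_atTop_atTop).eventually_ge_atTop _
  have ev2 : ∀ᶠ b : ℕ in atTop, (24 : ℝ) ≤ (b : ℝ) ^ η :=
    ((tendsto_rpow_atTop (by linarith)).comp tendsto_natCast_atTop_atTop).eventually_ge_atTop _
  have ev3 : ∀ᶠ b : ℕ in atTop, 8 * Real.log b ≤ (b : ℝ) ^ η := by
    have h1 := (isLittleO_log_rpow_atTop (show 0 < η by linarith)).bound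
      (show (0 : ℝ) < 1 / 8 by norm_num)
    filter_upwards [tendsto_natCast_atTop_atTop.eventually h1, eventually_ge_atTop 1] with Y hY hY1
    have hY1r : (1 : ℝ) ≤ Y := by exact_mod_cast hY1
    rw [Real.norm_of_nonneg (Real.log_nonneg hY1r), Real.norm_of_nonneg (by positivity)] at hY
    linarith
  have ev4 : ∀ᶠ b : ℕ in atTop, (1 : ℝ) ≤ (b : ℝ) ^ (1 - η) :=
    ((tendsto_rpow_atTop (by linarith)).comp tendsto_natCast_atTop_atTop).eventually_ge_atTop _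
  obtain ⟨b1, hb1⟩ := eventually_atTop.1 (ev1.and (ev2.and (ev3.and (ev4.and (eventually_ge_atTop 1)))))
  refine ⟨b1, fun b hb => ?_⟩
  obtain ⟨e1, e2, e3, e4, e5⟩ := hb1 b hb
  have hbr : (1 : ℝ) ≤ b := by exact_mod_cast e5
  have hb0 : (0 : ℝ) < b := by linarith
  set m := ⌊(b : ℝ) ^ μ⌋₊ with hm
  have hmr : (m : ℝ) ≤ (b : ℝ) ^ μ := Nat.floor_le (by positivity)
  have h1 : 4 * (b : ℝ) ^ μ ≤ (b : ℝ) ^ η := by
    calc 4 * (b : ℝ) ^ μ ≤ (b : ℝ) ^ (η - μ) * (b : ℝ) ^ μ :=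
          mul_le_mul_of_nonneg_right e1 (by positivity)
      _ = _ := by
          rw [← Real.rpow_add hb0]
          congr 1
          ring
  have h2 : (b : ℝ) ^ η ≤ b := by
    calc (b : ℝ) ^ η ≤ (b : ℝ) ^ (1 : ℝ) := Real.rpow_le_rpow_of_exponent_le hbr hη.le
      _ = b := Real.rpow_one _
  have h3 : 2 * m + 2 ≤ b := by
    have : (2 : ℝ) * m + 2 ≤ b := by linarith
    exact_mod_cast this
  refine ⟨h3, ?_⟩
  refine (sum_gg b m (by omega)).trans ?_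
  linarith

open Classical in
theorem fin (a : ℤ) (ha : ¬ IsSquare (-a)) (r : ℕ) (τ ζ υ lam S : ℝ) (hζ : 0 < ζ) (h2 : 2 * ζ < τ)
    (h4 : τ ≤ 4 * ζ) (hτ : τ < 1) (hζυ : ζ ≤ υ) (hυτ : υ < τ)
    (hlam : 0 < lam)
    (hJ0 : ∫ x in ζ..υ, (lam - lam / υ * x) / (τ - x) / x < Real.log (τ / ζ - 1) / τ) (hS : 2 < S)
    (hr : 1 / lam + S / υ ≤ r + 1) (μ : ℝ) (hμ0 : 0 < μ) (hμ1 : μ < 1 / 2) (hμτ : μ < 1 - τ) :
    ∃ b0 : ℕ, ∀ b : ℕ, b0 ≤ b → ∃ δ : ℝ, 0 < δ ∧ ∃ k0 : ℕ, ∀ k : ℕ, k0 ≤ k → ∀ D : ℕ → Finset ℕ,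
      (∀ i < k, D i ⊆ range b ∧ ((range b \ D i).card : ℝ) ≤ (b : ℝ) ^ μ) →
      δ * (SD b D k).card / k ≤ ((good a r (((b : ℝ) ^ k) ^ ζ) (SD b D k)).card : ℝ) := by
  obtain ⟨η, hμη, hη1, hη2⟩ : ∃ η : ℝ, μ < η ∧ η < 1 / 2 ∧ η < 1 - τ := by
    refine ⟨(μ + min (1 / 2) (1 - τ)) / 2, ?_, ?_, ?_⟩
    · have : μ < min (1 / 2) (1 - τ) := lt_min hμ1 hμτ
      linarith
    · have := min_le_left (1 / 2) (1 - τ)
      linarith
    · have := min_le_right (1 / 2) (1 - τ)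
      linarith
  obtain ⟨b1, hb1⟩ := ev_base μ η hμ0 hμη (by linarith)
  obtain ⟨b2, hb2⟩ := unit_ex a μ (by linarith)
  have ev1 : ∀ᶠ b : ℕ in atTop, (4 : ℝ) ≤ (b : ℝ) ^ ζ :=
    ((tendsto_rpow_atTop hζ).comp tendsto_natCast_atTop_atTop).eventually_ge_atTop _
  have ev2 : ∀ᶠ b : ℕ in atTop, (4 : ℝ) ≤ (b : ℝ) ^ (1 - υ) :=
    ((tendsto_rpow_atTop (by linarith)).comp tendsto_natCast_atTop_atTop).eventually_ge_atTop _
  obtain ⟨b3, hb3⟩ := eventually_atTop.1 (ev1.and (ev2.and (eventually_ge_atTop 1)))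
  refine ⟨max b1 (max b2 b3), fun b hb => ?_⟩
  obtain ⟨g1, g2⟩ := hb1 b ((le_max_left _ _).trans hb)
  have g3 := hb2 b (((le_max_left _ _).trans (le_max_right _ _)).trans hb)
  obtain ⟨g4, g5, g6⟩ := hb3 b (((le_max_right _ _).trans (le_max_right _ _)).trans hb)
  have hb0 : (0 : ℝ) < b := by exact_mod_cast g6
  set m := ⌊(b : ℝ) ^ μ⌋₊ with hm
  obtain ⟨δ, hδ, k0, HK⟩ := restr a ha r τ ζ υ lam S hζ h2 h4 hτ hζυ hυτ hlam hJ0 hS hr η
    (by linarith) hη1 (by linarith) b m g1 g2 g4 g5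
  refine ⟨δ / b, by positivity, max k0 1, fun k hk D hD => ?_⟩
  have hk1 : 1 ≤ k := (le_max_right _ _).trans hk
  have hkr : (0 : ℝ) < k := by exact_mod_cast hk1
  obtain ⟨x, hxD, hxb, hx⟩ := g3 (D 0) (hD 0 (by omega)).2
  set D' : ℕ → Finset ℕ := fun i => if i = 0 then {x} else D i with hD'
  have hD'0 : D' 0 = {x} := by simp [hD']
  have hD'1 : ∀ i, 1 ≤ i → D' i = D i := by
    intro i hi
    simp only [hD']
    rw [if_neg (by omega)]
  have hD's : ∀ i < k, D' i ⊆ range b := by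
    intro i hi
    rcases Nat.eq_zero_or_pos i with h | h
    · rw [h, hD'0]
      intro y hy
      rw [mem_singleton] at hy
      rw [mem_range, hy]
      exact hxb
    · rw [hD'1 i h]
      exact (hD i hi).1
  have hD'm : ∀ i < k, 1 ≤ i → (range b \ D' i).card ≤ m := by
    intro i hi h
    rw [hD'1 i h, hm]
    exact Nat.le_floor (hD i hi).2
  have hmain := HK k ((le_max_left _ _).trans hk) D' hD's hD'm x hD'0 hx
  have hsub : SD b D' k ⊆ SD b D k := by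
    unfold SD
    intro n hn
    rw [mem_filter] at hn ⊢
    refine ⟨hn.1, fun i hi => ?_⟩
    rcases Nat.eq_zero_or_pos i with h | h
    · have := hn.2 0 (by omega)
      rw [hD'0, mem_singleton] at this
      rw [h, this]
      exact hxD
    · rw [← hD'1 i h]
      exact hn.2 i hi
  have hcard : ((SD b D k).card : ℝ) ≤ b * (SD b D' k).card := by
    rw [card_SD b (by omega) D k (fun i hi => (hD i hi).1), card_SD b (by omega) D' k hD's]
    obtain ⟨l, rfl⟩ : ∃ l, k = l + 1 := ⟨k - 1, by omega⟩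
    rw [prod_range_succ', prod_range_succ']
    have h5 : ∏ i ∈ range l, (D' (i + 1)).card = ∏ i ∈ range l, (D (i + 1)).card := by
      apply prod_congr rfl
      intro i _
      rw [hD'1 (i + 1) (by omega)]
    have h6 : (D 0).card ≤ b := by
      have := card_le_card (hD 0 (by omega)).1
      rwa [card_range] at this
    rw [h5, hD'0, card_singleton, mul_one]
    have h7 : (∏ i ∈ range l, (D (i + 1)).card) * (D 0).card ≤ b * ∏ i ∈ range l, (D (i + 1)).card := by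
      rw [mul_comm]
      exact Nat.mul_le_mul_right _ h6
    exact_mod_cast h7
  have hgood : ((good a r (((b : ℝ) ^ k) ^ ζ) (SD b D' k)).card : ℝ) ≤
      ((good a r (((b : ℝ) ^ k) ^ ζ) (SD b D k)).card : ℝ) := by
    have : good a r (((b : ℝ) ^ k) ^ ζ) (SD b D' k) ⊆ good a r (((b : ℝ) ^ k) ^ ζ) (SD b D k) := by
      unfold good
      exact filter_subset_filter _ hsub
    exact_mod_cast card_le_card this
  calc δ / b * (SD b D k).card / k ≤ δ / b * (b * (SD b D' k).card) / k := by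
        gcongr
    _ = δ * (SD b D' k).card / k := by field_simp
    _ ≤ _ := hmain.trans hgood

end Pool.Agent.T3H29.DG
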