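import Pool.Agent.T3H29.DG.Exp

/-! Integers with restricted digits: the sum of the exponential sums over the Farey fractions. -/

set_option autoImplicit false

open Finset

namespace Pool.Agent.T3H29.DG

/-- the normalised exponential sum -/
noncomputable def TT (b : ℕ) (D : ℕ → Finset ℕ) (k : ℕ) (θ : ℝ) : ℝ :=
  ∏ i ∈ range k, ff (D i) ((b : ℝ) ^ i * θ)

theorem TT_nonneg (b : ℕ) (D : ℕ → Finset ℕ) (k : ℕ) (θ : ℝ) : 0 ≤ TT b D k θ :=
  prod_nonneg fun _ _ => ff_nonneg _ _

theorem norm_ES (b : ℕ) (hb : 0 < b) (D : ℕ → Finset ℕ) (k : ℕ) (hD : ∀ i < k, D i ⊆ range b) (θ : ℝ) :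
    ‖ES b D k θ‖ = TT b D k θ * (SD b D k).card := by
  rw [ES_eq b hb D k hD, card_SD b hb D k hD, norm_prod]
  unfold TT
  push_cast
  rw [← prod_mul_distrib]
  apply prod_congr rfl
  intro i _
  unfold ff
  rcases Nat.eq_zero_or_pos (D i).card with h | h
  · rw [card_eq_zero] at h
    rw [h]
    simp
  · have : ((D i).card : ℝ) ≠ 0 := by exact_mod_cast h.ne'
    rw [div_mul_cancel₀ _ this]

/-- the weights -/
noncomputable def ww (b m k i t : ℕ) : ℝ := if i = 0 ∨ k ≤ i then 1 else gg b m t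

theorem ww_nonneg (b m k i t : ℕ) (hmb : 2 * m < b) : 0 ≤ ww b m k i t := by
  unfold ww
  split_ifs
  · norm_num
  · exact gg_nonneg b m t hmb

theorem ff_digit (b m : ℕ) (D : Finset ℕ) (hD : D ⊆ range b) (hm : (range b \ D).card ≤ m)
    (hmb : 2 * m < b) (i : ℕ) (α : ℝ) (hα : 0 ≤ α) :
    ff D ((b : ℝ) ^ i * α) ≤ gg b m (⌊(b : ℝ) ^ (i + 1) * α⌋₊ % b) := by
  have hb : 0 < b := by omega
  have hb0 : (0 : ℝ) < b := by exact_mod_cast hb
  set y : ℝ := (b : ℝ) ^ (i + 1) * α with hy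
  have hy0 : 0 ≤ y := by positivity
  set N : ℕ := ⌊y⌋₊ with hN
  have h1 : (N : ℝ) ≤ y := Nat.floor_le hy0
  have h2 : y < N + 1 := Nat.lt_floor_add_one y
  have h3 : (b : ℝ) ^ i * α = ((N % b : ℕ) + (y - N)) / b + ((N / b : ℕ) : ℤ) := by
    have h4 : (N : ℝ) = ((N % b : ℕ) : ℝ) + b * ((N / b : ℕ) : ℝ) := by
      exact_mod_cast (Nat.mod_add_div N b).symm
    have h5 : (b : ℝ) ^ i * α = y / b := by
      rw [hy, pow_succ]
      field_simp
    rw [h5, Int.cast_natCast, div_add' _ _ _ hb0.ne']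
    congr 1
    linarith
  rw [h3, ff_add_int]
  exact ff_le_gg b m D hD hm hmb _ (Nat.mod_lt _ hb) _ (by linarith) (by linarith)

theorem TT_le (b m : ℕ) (D : ℕ → Finset ℕ) (k : ℕ) (hD : ∀ i < k, D i ⊆ range b)
    (hm : ∀ i < k, 1 ≤ i → (range b \ D i).card ≤ m) (hmb : 2 * m < b) (J : ℕ) (α : ℝ) (hα : 0 ≤ α) :
    TT b D k α ≤ ∏ i ∈ range J, ww b m k i (⌊(b : ℝ) ^ J * α⌋₊ / b ^ (J - 1 - i) % b) := by
  have hb : 0 < b := by omega
  have hb0 : (0 : ℝ) < b := by exact_mod_cast hb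
  set A : ℕ → ℝ := fun i => if i < k then ff (D i) ((b : ℝ) ^ i * α) else 1 with hA
  have hA0 : ∀ i, 0 ≤ A i := by
    intro i
    simp only [hA]
    split_ifs
    · exact ff_nonneg _ _
    · norm_num
  have hA1 : ∀ i, A i ≤ 1 := by
    intro i
    simp only [hA]
    split_ifs
    · exact ff_le_one _ _
    · norm_num
  have h1 : TT b D k α = ∏ i ∈ range (k + J), A i := by
    rw [prod_range_add]
    have e1 : ∏ x ∈ range J, A (k + x) = 1 := by
      apply prod_eq_one
      intro x _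
      simp only [hA]
      rw [if_neg (by omega)]
    rw [e1, mul_one]
    unfold TT
    apply prod_congr rfl
    intro i hi
    simp only [hA]
    rw [if_pos (mem_range.1 hi)]
  have h2 : ∏ i ∈ range (k + J), A i ≤ ∏ i ∈ range J, A i := by
    rw [add_comm, prod_range_add]
    calc (∏ x ∈ range J, A x) * ∏ x ∈ range k, A (J + x) ≤ (∏ x ∈ range J, A x) * 1 := by
          apply mul_le_mul_of_nonneg_left
          · exact prod_le_one (fun i _ => hA0 _) (fun i _ => hA1 _)
          · exact prod_nonneg fun i _ => hA0 _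
      _ = _ := mul_one _
  rw [h1]
  refine h2.trans ?_
  apply prod_le_prod (fun i _ => hA0 i)
  intro i hi
  have hiJ := mem_range.1 hi
  unfold ww
  split_ifs with h
  · exact hA1 i
  · push Not at h
    simp only [hA]
    rw [if_pos h.2]
    have h3 := ff_digit b m (D i) (hD i h.2) (hm i h.2 (Nat.pos_of_ne_zero h.1)) hmb i α hα
    have h4 : ⌊(b : ℝ) ^ J * α⌋₊ / b ^ (J - 1 - i) = ⌊(b : ℝ) ^ (i + 1) * α⌋₊ := by
      rw [← Nat.floor_div_natCast]
      congr 1
      have e : J = (i + 1) + (J - 1 - i) := by omega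
      have e2 : (b : ℝ) ^ J = (b : ℝ) ^ (i + 1) * (b : ℝ) ^ (J - 1 - i) := by
        rw [← pow_add, ← e]
      rw [e2]
      push_cast
      field_simp
    rw [h4]
    exact h3

theorem SD_full (b J : ℕ) (hb : 0 < b) : SD b (fun _ => range b) J = range (b ^ J) := by
  unfold SD
  apply filter_true_of_mem
  intro n _ i _
  rw [mem_range]
  exact Nat.mod_lt _ hb

theorem sum_ww (b m k J : ℕ) (hmb : 2 * m < b) (L : ℝ) (hL1 : 1 ≤ L)
    (hL : ∑ t ∈ range b, gg b m t ≤ L) :
    ∑ r ∈ range (b ^ J), ∏ i ∈ range J, ww b m k i (r / b ^ (J - 1 - i) % b) ≤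
      b * (L ^ min J k * (b : ℝ) ^ (J - k)) := by
  have hb : 0 < b := by omega
  have hb1 : (1 : ℝ) ≤ b := by exact_mod_cast hb
  have h1 : ∑ r ∈ range (b ^ J), ∏ i ∈ range J, ww b m k i (r / b ^ (J - 1 - i) % b) =
      ∏ i ∈ range J, ∑ t ∈ range b, ww b m k (J - 1 - i) t := by
    rw [← sum_prod b hb (fun _ => range b) (fun i t => ww b m k (J - 1 - i) t) J (fun _ _ => subset_rfl),
      SD_full b J hb]
    apply sum_congr rfl
    intro r _
    rw [← prod_range_reflect]
    apply prod_congr rfl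
    intro i hi
    have := mem_range.1 hi
    rw [show J - 1 - (J - 1 - i) = i by omega]
  rw [h1, prod_range_reflect (fun i => ∑ t ∈ range b, ww b m k i t) J]
  have h2 : ∀ i ∈ range J, ∑ t ∈ range b, ww b m k i t ≤
      (if i = 0 then (b : ℝ) else 1) * (if k ≤ i then (b : ℝ) else L) := by
    intro i _
    unfold ww
    by_cases h3 : i = 0
    · rw [if_pos h3]
      simp only [h3, true_or, if_true, sum_const, card_range, nsmul_eq_mul, mul_one]
      have : 1 ≤ if k ≤ 0 then (b : ℝ) else L := by split_ifs <;> linarith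
      nlinarith
    · by_cases h4 : k ≤ i
      · simp only [h3, h4, or_true, if_true, sum_const, card_range, nsmul_eq_mul, mul_one, if_false,
          one_mul, le_refl]
      · simp only [h3, h4, or_self, if_false, one_mul]
        exact hL
  calc ∏ i ∈ range J, ∑ t ∈ range b, ww b m k i t ≤
      ∏ i ∈ range J, (if i = 0 then (b : ℝ) else 1) * (if k ≤ i then (b : ℝ) else L) := by
        apply prod_le_prod
        · intro i _
          exact sum_nonneg fun t _ => ww_nonneg b m k i t hmb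
        · exact h2
    _ = (∏ i ∈ range J, (if i = 0 then (b : ℝ) else 1)) * ∏ i ∈ range J, (if k ≤ i then (b : ℝ) else L) :=
        prod_mul_distrib
    _ ≤ b * (L ^ min J k * (b : ℝ) ^ (J - k)) := by
        apply mul_le_mul
        · rcases Nat.eq_zero_or_pos J with h | h
          · rw [h]
            simpa using hb1
          · rw [prod_ite_eq' (range J) 0 (fun _ => (b : ℝ)), if_pos (mem_range.2 h)]
        · apply le_of_eq
          rw [prod_ite, prod_const, prod_const, mul_comm]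
          congr 2
          · have : (range J).filter (fun i => ¬ k ≤ i) = range (min J k) := by
              ext i
              simp only [mem_filter, mem_range]
              omega
            rw [this, card_range]
          · have : (range J).filter (fun i => k ≤ i) = Ico k J := by
              ext i
              simp only [mem_filter, mem_range, mem_Ico]
              omega
            rw [this, Nat.card_Ico]
        · apply prod_nonneg
          intro i _
          split_ifs <;> linarith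
        · linarith

/-- the sum over the reduced fractions with denominator `e` -/
noncomputable def TS (b : ℕ) (D : ℕ → Finset ℕ) (k e : ℕ) : ℝ :=
  ∑ h ∈ (range e).filter (fun h => Nat.Coprime h e), TT b D k ((h : ℝ) / e)

theorem TS_nonneg (b : ℕ) (D : ℕ → Finset ℕ) (k e : ℕ) : 0 ≤ TS b D k e :=
  sum_nonneg fun _ _ => TT_nonneg _ _ _ _

theorem frac_sep (Q B : ℕ) (hQB : Q ^ 2 ≤ B) (e e' h h' : ℕ) (he : 1 ≤ e) (he' : 1 ≤ e') (heQ : e ≤ Q)
    (heQ' : e' ≤ Q) (hc : Nat.Coprime h e) (hc' : Nat.Coprime h' e')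
    (hfl : ⌊(B : ℝ) * ((h : ℝ) / e)⌋₊ = ⌊(B : ℝ) * ((h' : ℝ) / e')⌋₊) : e = e' ∧ h = h' := by
  have he0 : (0 : ℝ) < e := by exact_mod_cast he
  have he0' : (0 : ℝ) < e' := by exact_mod_cast he'
  have h1 : |(B : ℝ) * ((h : ℝ) / e) - (B : ℝ) * ((h' : ℝ) / e')| < 1 := by
    have a1 := Nat.floor_le (show 0 ≤ (B : ℝ) * ((h : ℝ) / e) by positivity)
    have a2 := Nat.lt_floor_add_one ((B : ℝ) * ((h : ℝ) / e))
    have a3 := Nat.floor_le (show 0 ≤ (B : ℝ) * ((h' : ℝ) / e') by positivity)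
    have a4 := Nat.lt_floor_add_one ((B : ℝ) * ((h' : ℝ) / e'))
    rw [hfl] at a1 a2
    rw [abs_lt]
    constructor <;> linarith
  have h2 : (h : ℤ) * e' - h' * e = 0 := by
    by_contra hne
    have h3 : (1 : ℤ) ≤ |(h : ℤ) * e' - h' * e| := Int.one_le_abs hne
    have h3r : (1 : ℝ) ≤ |(h : ℝ) * e' - h' * e| := by exact_mod_cast h3
    have h4 : (B : ℝ) * ((h : ℝ) / e) - (B : ℝ) * ((h' : ℝ) / e') =
        B / (e * e') * ((h : ℝ) * e' - h' * e) := by
      field_simp
    rw [h4, abs_mul, abs_of_nonneg (by positivity)] at h1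
    have h5 : (1 : ℝ) ≤ B / (e * e') := by
      rw [le_div_iff₀ (by positivity), one_mul]
      have h6 : e * e' ≤ B := (Nat.mul_le_mul heQ heQ').trans (by rw [← sq]; exact hQB)
      exact_mod_cast h6
    nlinarith [abs_nonneg ((h : ℝ) * e' - h' * e)]
  have h3 : h * e' = h' * e := by
    have : (h : ℤ) * e' = h' * e := by linarith
    exact_mod_cast this
  have h4 : e ∣ e' := by
    have : e ∣ h * e' := by rw [h3]; exact dvd_mul_left _ _
    exact hc.symm.dvd_of_dvd_mul_left this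
  have h5 : e' ∣ e := by
    have : e' ∣ h' * e := by rw [← h3]; exact dvd_mul_left _ _
    exact hc'.symm.dvd_of_dvd_mul_left this
  have h6 := Nat.dvd_antisymm h4 h5
  refine ⟨h6, ?_⟩
  rw [← h6] at h3
  exact Nat.eq_of_mul_eq_mul_right he h3

theorem sum_TS (b m : ℕ) (D : ℕ → Finset ℕ) (k : ℕ) (hD : ∀ i < k, D i ⊆ range b)
    (hm : ∀ i < k, 1 ≤ i → (range b \ D i).card ≤ m) (hmb : 2 * m < b) (L : ℝ) (hL1 : 1 ≤ L)
    (hL : ∑ t ∈ range b, gg b m t ≤ L) (J Q : ℕ) (hJ : Q ^ 2 ≤ b ^ J) :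
    ∑ e ∈ Icc 1 Q, TS b D k e ≤ b * (L ^ min J k * (b : ℝ) ^ (J - k)) := by
  have hb : 0 < b := by omega
  refine le_trans ?_ (sum_ww b m k J hmb L hL1 hL)
  unfold TS
  rw [sum_sigma']
  set P := (Icc 1 Q).sigma (fun e => (range e).filter (fun h => Nat.Coprime h e)) with hP
  set g : (Σ _ : ℕ, ℕ) → ℕ := fun x => ⌊(b : ℝ) ^ J * ((x.2 : ℝ) / x.1)⌋₊ with hg
  have hmem : ∀ x ∈ P, 1 ≤ x.1 ∧ x.1 ≤ Q ∧ x.2 < x.1 ∧ Nat.Coprime x.2 x.1 := by
    intro x hx
    rw [hP, mem_sigma, mem_Icc, mem_filter, mem_range] at hx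
    exact ⟨hx.1.1, hx.1.2, hx.2.1, hx.2.2⟩
  have hinj : Set.InjOn g P := by
    intro x hx y hy hxy
    obtain ⟨x1, x2, x3, x4⟩ := hmem x hx
    obtain ⟨y1, y2, y3, y4⟩ := hmem y hy
    have := frac_sep Q (b ^ J) hJ x.1 y.1 x.2 y.2 x1 y1 x2 y2 x4 y4 (by
      push_cast
      exact hxy)
    obtain ⟨u1, u2⟩ := this
    cases x
    cases y
    simp only at u1 u2
    subst u1
    subst u2
    rfl
  calc ∑ x ∈ P, TT b D k ((x.2 : ℝ) / x.1) ≤
      ∑ x ∈ P, ∏ i ∈ range J, ww b m k i (g x / b ^ (J - 1 - i) % b) := by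
        apply sum_le_sum
        intro x _
        exact TT_le b m D k hD hm hmb J _ (by positivity)
    _ = ∑ r ∈ P.image g, ∏ i ∈ range J, ww b m k i (r / b ^ (J - 1 - i) % b) := by
        rw [sum_image (fun x hx y hy h => hinj hx hy h)]
    _ ≤ _ := by
        apply sum_le_sum_of_subset_of_nonneg
        · intro r hr
          rw [mem_image] at hr
          obtain ⟨x, hx, rfl⟩ := hr
          obtain ⟨x1, x2, x3, x4⟩ := hmem x hx
          rw [mem_range, hg]
          show ⌊(b : ℝ) ^ J * ((x.2 : ℝ) / x.1)⌋₊ < b ^ J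
          have hx0 : (0 : ℝ) < x.1 := by exact_mod_cast x1
          rw [Nat.floor_lt (by positivity)]
          push_cast
          have h1 : (x.2 : ℝ) / x.1 < 1 := by
            rw [div_lt_one hx0]
            exact_mod_cast x3
          have h2 : (0 : ℝ) < (b : ℝ) ^ J := by positivity
          nlinarith
        · intro r _ _
          exact prod_nonneg fun i _ => ww_nonneg _ _ _ _ _ hmb

end Pool.Agent.T3H29.DG
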