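import Pool.Agent.T3H29.DG.ErrT
import Pool.Agent.T3H29.DG.Asym
import Pool.Agent.T3H29.DG.Sieve
import Pool.Agent.Y882.MG.Quad2

/-! Almost prime values of `n ^ 2 + a` with `n` an integer with restricted digits. -/

set_option autoImplicit false

open Finset Polynomial Filter

namespace Pool.Agent.T3H29.DG

open Pool.Agent.W23.DC
open Pool.Agent.Y882
open Pool.Agent.Y882.PX
open Pool.Agent.Y882.KW
open Pool.Agent.Y882.SI
open Pool.Agent.Y882.MG

open Classical in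
/-- the elements `n` of `S` such that `n ^ 2 + a` has at most `r` prime factors, all at least `z` -/
noncomputable def good (a : ℤ) (r : ℕ) (z : ℝ) (S : Finset ℕ) : Finset ℕ :=
  S.filter (fun n : ℕ => ((n : ℤ) ^ 2 + a).natAbs.primeFactorsList.length ≤ r ∧
    ∀ p : ℕ, p.Prime → (p : ℤ) ∣ (n : ℤ) ^ 2 + a → z ≤ p)

open Classical in
/-- the `n` below `Y` such that `n ^ 2 + a` is divisible by the square of a medium prime -/
noncomputable def badS (a : ℤ) (Y : ℕ) (ζ υ : ℝ) : Finset ℕ :=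
  (range Y).filter (fun n : ℕ => ∃ q ∈ pr Y ζ υ, ((q ^ 2 : ℕ) : ℤ) ∣ (QF a).eval (n : ℤ))

open Classical in
theorem bad_le (a : ℤ) (ha0 : a ≠ 0) (Y : ℕ) (ζ υ : ℝ) (hY : 2 ≤ Y)
    (hYζ : (a.natAbs : ℝ) + 4 ≤ (Y : ℝ) ^ ζ) :
    ((badS a Y ζ υ).card : ℝ) ≤ 1 + 2 * (Y * (2 / (Y : ℝ) ^ ζ) + (Y : ℝ) ^ υ) := by
  unfold badS
  have hsub : (range Y).filter (fun n : ℕ => ∃ q ∈ pr Y ζ υ, ((q ^ 2 : ℕ) : ℤ) ∣ (QF a).eval (n : ℤ)) ⊆
      insert 0 ((pr Y ζ υ).biUnion (fun q => (Icc 1 Y).filter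
        (fun j : ℕ => ((q ^ 2 : ℕ) : ℤ) ∣ (QF a).eval ((0 + j : ℕ) : ℤ)))) := by
    intro n hn
    rw [mem_filter, mem_range] at hn
    obtain ⟨h1, q, hq, hqd⟩ := hn
    rw [mem_insert]
    rcases Nat.eq_zero_or_pos n with h | h
    · exact Or.inl h
    · right
      rw [mem_biUnion]
      refine ⟨q, hq, ?_⟩
      rw [mem_filter, mem_Icc, zero_add]
      exact ⟨⟨h, h1.le⟩, hqd⟩
  have hpr : ∀ q ∈ pr Y ζ υ, q.Prime ∧ (Y : ℝ) ^ ζ ≤ q ∧ (q : ℝ) ≤ (Y : ℝ) ^ υ := by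
    intro q hq
    obtain ⟨u1, u2, u3⟩ := pr_mem Y q ζ υ hY hq
    exact ⟨u1, u2, u3.le⟩
  have h4 : (4 : ℝ) ≤ (Y : ℝ) ^ ζ := by
    have : (0 : ℝ) ≤ a.natAbs := Nat.cast_nonneg _
    linarith
  have hc : ((pr Y ζ υ).card : ℝ) ≤ (Y : ℝ) ^ υ := by
    apply card_lt _ _ (by positivity)
    intro q hq
    exact ⟨(hpr q hq).1.one_le, (hpr q hq).2.2⟩
  have ht : ∑ q ∈ pr Y ζ υ, 1 / (q : ℝ) ^ 2 ≤ 2 / (Y : ℝ) ^ ζ := by
    apply tail_sq _ _ (by linarith)
    intro q hq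
    exact (hpr q hq).2.1
  calc _ ≤ (((insert 0 ((pr Y ζ υ).biUnion (fun q => (Icc 1 Y).filter
        (fun j : ℕ => ((q ^ 2 : ℕ) : ℤ) ∣ (QF a).eval ((0 + j : ℕ) : ℤ))))).card : ℕ) : ℝ) := by
        exact_mod_cast card_le_card hsub
    _ ≤ ((1 + ∑ q ∈ pr Y ζ υ, ((Icc 1 Y).filter
        (fun j : ℕ => ((q ^ 2 : ℕ) : ℤ) ∣ (QF a).eval ((0 + j : ℕ) : ℤ))).card : ℕ) : ℝ) := by
        have h1 := card_insert_le 0 ((pr Y ζ υ).biUnion (fun q => (Icc 1 Y).filter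
          (fun j : ℕ => ((q ^ 2 : ℕ) : ℤ) ∣ (QF a).eval ((0 + j : ℕ) : ℤ))))
        have h2 := card_biUnion_le (s := pr Y ζ υ) (t := fun q => (Icc 1 Y).filter
          (fun j : ℕ => ((q ^ 2 : ℕ) : ℤ) ∣ (QF a).eval ((0 + j : ℕ) : ℤ)))
        exact_mod_cast (by omega)
    _ ≤ 1 + ∑ q ∈ pr Y ζ υ, (2 : ℝ) * (Y * (1 / (q : ℝ) ^ 2) + 1) := by
        push_cast
        apply add_le_add le_rfl
        apply sum_le_sum
        intro q hq
        obtain ⟨u1, u2, u3⟩ := hpr q hq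
        have u4 : (a.natAbs : ℝ) + 4 ≤ q := hYζ.trans u2
        have u5 : a.natAbs + 4 ≤ q := by exact_mod_cast u4
        have := sq_countS a ha0 q u1 (by omega) (by omega) 0 Y
        push_cast at this
        exact this
    _ = 1 + 2 * (Y * (∑ q ∈ pr Y ζ υ, 1 / (q : ℝ) ^ 2) + (pr Y ζ υ).card) := by
        rw [← mul_sum, sum_add_distrib, ← mul_sum, sum_const, nsmul_eq_mul, mul_one]
    _ ≤ _ := by gcongr

theorem card_SD_ge (b m : ℕ) (hmb : 2 * m + 2 ≤ b) (D : ℕ → Finset ℕ) (k : ℕ) (hk : 1 ≤ k)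
    (hD : ∀ i < k, D i ⊆ range b) (hm : ∀ i < k, 1 ≤ i → (range b \ D i).card ≤ m)
    (h0 : 1 ≤ (D 0).card) : ((b : ℝ) ^ k) ≤ b * 2 ^ k * (SD b D k).card := by
  rw [card_SD b (by omega) D k hD]
  obtain ⟨l, rfl⟩ : ∃ l, k = l + 1 := ⟨k - 1, by omega⟩
  rw [prod_range_succ']
  have h1 : ((b : ℝ) / 2) ^ l ≤ ∏ i ∈ range l, ((D (i + 1)).card : ℝ) := by
    calc ((b : ℝ) / 2) ^ l = ∏ _i ∈ range l, ((b : ℝ) / 2) := by rw [prod_const, card_range]
      _ ≤ _ := by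
          apply Finset.prod_le_prod
          · intro i _
            positivity
          · intro i hi
            have hi' := mem_range.1 hi
            have h2 := card_sdiff_add_card_eq_card (hD (i + 1) (by omega))
            rw [card_range] at h2
            have h3 := hm (i + 1) (by omega) (by omega)
            have h4 : b ≤ 2 * (D (i + 1)).card := by omega
            have h5 : (b : ℝ) ≤ 2 * (D (i + 1)).card := by exact_mod_cast h4
            linarith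
  have h2 : (1 : ℝ) ≤ (D 0).card := by exact_mod_cast h0
  push_cast
  have hb0 : (0 : ℝ) ≤ b := Nat.cast_nonneg _
  calc (b : ℝ) ^ (l + 1) = b * 2 ^ l * ((b / 2) ^ l * 1) := by
        rw [div_pow]
        field_simp
        ring
    _ ≤ b * 2 ^ l * ((∏ i ∈ range l, ((D (i + 1)).card : ℝ)) * (D 0).card) := by
        apply mul_le_mul_of_nonneg_left _ (by positivity)
        exact mul_le_mul h1 h2 (by norm_num) (prod_nonneg fun _ _ => Nat.cast_nonneg _)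
    _ ≤ b * 2 ^ (l + 1) * ((∏ i ∈ range l, ((D (i + 1)).card : ℝ)) * (D 0).card) := by
        have h3 : 0 ≤ (∏ i ∈ range l, ((D (i + 1)).card : ℝ)) * (D 0).card :=
          mul_nonneg (prod_nonneg fun _ _ => Nat.cast_nonneg _) (Nat.cast_nonneg _)
        apply mul_le_mul_of_nonneg_right _ h3
        apply mul_le_mul_of_nonneg_left _ hb0
        exact pow_le_pow_right₀ (by norm_num) (by omega)

theorem evlog (K c : ℝ) (hc : 0 < c) : ∃ k0 : ℕ, ∀ k : ℕ, k0 ≤ k → K * k ≤ c * 2 ^ k := by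
  obtain ⟨s0, hs0⟩ := evp 1 (Real.log 2) (|K| / c) (Real.log_pos (by norm_num))
  refine ⟨s0, fun k hk => ?_⟩
  have h1 := hs0 k hk
  have h2 : Real.exp (-(Real.log 2 * k)) = 1 / 2 ^ k := by
    rw [Real.exp_neg, mul_comm, ← Real.log_pow, Real.exp_log (by positivity), one_div]
  rw [h2, pow_one, mul_one_div, div_le_one (by positivity), div_mul_eq_mul_div, div_le_iff₀ hc] at h1
  have h3 : (0 : ℝ) ≤ k := Nat.cast_nonneg _
  calc K * k ≤ |K| * (k + 1) := by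
        have := le_abs_self K
        have := abs_nonneg K
        nlinarith
    _ ≤ _ := by linarith

open Classical in
/-- **The almost primes, one last digit.** -/
theorem restr (a : ℤ) (ha : ¬ IsSquare (-a)) (r : ℕ) (τ ζ υ lam S : ℝ) (hζ : 0 < ζ) (h2 : 2 * ζ < τ)
    (h4 : τ ≤ 4 * ζ) (hτ : τ < 1) (hζυ : ζ ≤ υ) (hυτ : υ < τ)
    (hlam : 0 < lam)
    (hJ0 : ∫ x in ζ..υ, (lam - lam / υ * x) / (τ - x) / x < Real.log (τ / ζ - 1) / τ) (hS : 2 < S)
    (hr : 1 / lam + S / υ ≤ r + 1) (η : ℝ) (hη0 : 0 ≤ η) (hη : η < 1 / 2) (hητ : τ < 1 - η)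
    (b m : ℕ) (hmb : 2 * m + 2 ≤ b) (hL : ∑ t ∈ range b, gg b m t ≤ (b : ℝ) ^ η)
    (hbζ : 4 ≤ (b : ℝ) ^ ζ) (hbυ : 4 ≤ (b : ℝ) ^ (1 - υ)) :
    ∃ δ : ℝ, 0 < δ ∧ ∃ k0 : ℕ, ∀ k : ℕ, k0 ≤ k → ∀ D : ℕ → Finset ℕ, (∀ i < k, D i ⊆ range b) →
      (∀ i < k, 1 ≤ i → (range b \ D i).card ≤ m) → ∀ d0 : ℕ, D 0 = {d0} →
      Nat.Coprime ((d0 : ℤ) ^ 2 + a).natAbs b →
      δ * (SD b D k).card / k ≤ ((good a r (((b : ℝ) ^ k) ^ ζ) (SD b D k)).card : ℝ) := by
  have ha0 : a ≠ 0 := by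
    rintro rfl
    exact ha ⟨0, by simp⟩
  have hb2 : 2 ≤ b := by omega
  have hb0 : 0 < b := by omega
  have hbr : (2 : ℝ) ≤ b := by exact_mod_cast hb2
  have hυ0 : 0 < υ := by linarith
  have hυ1 : υ ≤ 1 := by linarith
  have hlb0 : 0 < Real.log b := Real.log_pos (by linarith)
  -- the level
  obtain ⟨τ', hτ'⟩ : ∃ τ' : ℝ, τ' = (τ + (1 - η)) / 2 := ⟨_, rfl⟩
  obtain ⟨ε0, hε0, hε1, hε2⟩ : ∃ ε0 : ℝ, 0 < ε0 ∧ ε0 < 1 - 2 * η ∧ ε0 < 1 - η - τ' := by
    refine ⟨min ((1 - 2 * η) / 2) ((1 - η - τ') / 2), ?_, ?_, ?_⟩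
    · apply lt_min <;> linarith
    · refine (min_le_left _ _).trans_lt ?_
      linarith
    · refine (min_le_right _ _).trans_lt ?_
      linarith
  obtain ⟨σ, hσ⟩ : ∃ σ : ℝ, σ = 1 - ε0 := ⟨_, rfl⟩
  have hτ'0 : 0 < τ' := by linarith
  have hτ'1 : τ' ≤ 1 := by linarith
  have hσ1 : σ ≤ 1 := by linarith
  have hησ : 2 * η < σ := by linarith
  have hτσ : τ' * (2 - σ) < 1 - η := by
    rw [hσ]
    have : τ' * ε0 ≤ 1 * ε0 := mul_le_mul_of_nonneg_right hτ'1 hε0.le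
    linarith
  obtain ⟨C, hC1, hC⟩ := pow_card_le 2 ε0 hε0
  have hCk : ∀ e : ℕ, 1 ≤ e → (kap e : ℝ) / e ≤ C * (e : ℝ) ^ (-σ) := by
    intro e he
    have he0 : (0 : ℝ) < e := by exact_mod_cast he
    have h5 := hC e.primeFactors (fun p hp => Nat.prime_of_mem_primeFactors hp)
    have h6 : ((∏ p ∈ e.primeFactors, p : ℕ) : ℝ) ^ ε0 ≤ (e : ℝ) ^ ε0 := by
      apply Real.rpow_le_rpow (Nat.cast_nonneg _) _ hε0.le
      exact_mod_cast Nat.le_of_dvd (by omega) (Nat.prod_primeFactors_dvd e)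
    have h7 : (kap e : ℝ) = (2 : ℕ) ^ e.primeFactors.card := by
      unfold kap
      push_cast
      rfl
    rw [h7, div_le_iff₀ he0]
    refine h5.trans ((mul_le_mul_of_nonneg_left h6 (by linarith)).trans (le_of_eq ?_))
    rw [mul_assoc]
    congr 1
    have h8 : (e : ℝ) ^ ε0 = (e : ℝ) ^ (-σ + 1) := by
      congr 1
      linarith
    rw [h8, Real.rpow_add he0, Real.rpow_one]
  obtain ⟨k1, hk1⟩ := asym b hb2 η σ τ' C hη0 hησ hσ1 hτ'0 hτ'1 hτσ (by linarith) 7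
  obtain ⟨δ1, ε₁, η1, hδ1, hε₁, hε₁ζ, hε₁β, hη1, Y0, HE⟩ := core5 2 τ ζ υ lam (lam / υ) τ' 1
    hζ h2 h4 hτ.le hζυ hυτ hlam.le (by positivity) (by rw [div_mul_cancel₀ _ hυ0.ne']) hJ0
    (by linarith) one_pos
  obtain ⟨Y1, HM⟩ := mer_quad a ha ε₁ υ η1 hε₁ hυ1 hη1
  obtain ⟨c, hc, HLo⟩ := lo_quad a ha
  have ev1 : ∀ᶠ Y : ℕ in atTop, (b : ℝ) + 1 ≤ (Y : ℝ) ^ ε₁ :=
    ((tendsto_rpow_atTop hε₁).comp tendsto_natCast_atTop_atTop).eventually_ge_atTop _
  have ev2 : ∀ᶠ Y : ℕ in atTop, 1 + |(a : ℝ)| ≤ (Y : ℝ) ^ (S - 2) :=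
    ((tendsto_rpow_atTop (by linarith)).comp tendsto_natCast_atTop_atTop).eventually_ge_atTop _
  have ev3 : ∀ᶠ Y : ℕ in atTop, (a.natAbs : ℝ) + 4 ≤ (Y : ℝ) ^ ζ :=
    ((tendsto_rpow_atTop hζ).comp tendsto_natCast_atTop_atTop).eventually_ge_atTop _
  obtain ⟨Y2, hY2⟩ := eventually_atTop.1 (ev1.and (ev2.and (ev3.and (eventually_ge_atTop 3))))
  obtain ⟨k2, hk2⟩ := evlog (14 * b * Real.log b) (δ1 * c) (by positivity)
  obtain ⟨k3, hk3⟩ := exists_nat_ge (5 * Real.log b ^ 6)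
  refine ⟨δ1 * c / (2 * Real.log b), by positivity, max (max (max k1 k2) (max k3 1)) (max (max Y0 Y1) Y2), ?_⟩
  intro k hk D hD hm d0 hD0 hd0
  have hkk1 : k1 ≤ k := ((le_max_left _ _).trans ((le_max_left _ _).trans (le_max_left _ _))).trans hk
  have hkk2 : k2 ≤ k := ((le_max_right _ _).trans ((le_max_left _ _).trans (le_max_left _ _))).trans hk
  have hkk3 : k3 ≤ k := ((le_max_left _ _).trans ((le_max_right _ _).trans (le_max_left _ _))).trans hk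
  have hkk4 : 1 ≤ k := ((le_max_right _ _).trans ((le_max_right _ _).trans (le_max_left _ _))).trans hk
  have hkY : k < b ^ k := Nat.lt_pow_self hb2
  set Y : ℕ := b ^ k with hYdef
  have hYY0 : Y0 ≤ Y := (((le_max_left _ _).trans ((le_max_left _ _).trans (le_max_right _ _))).trans hk).trans hkY.le
  have hYY1 : Y1 ≤ Y := (((le_max_right _ _).trans ((le_max_left _ _).trans (le_max_right _ _))).trans hk).trans hkY.le
  have hYY2 : Y2 ≤ Y := (((le_max_right _ _).trans (le_max_right _ _)).trans hk).trans hkY.le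
  obtain ⟨e1, e2, e3, e4⟩ := hY2 Y hYY2
  have hYbk : ((b : ℝ) ^ k) = (Y : ℝ) := by rw [hYdef]; push_cast; rfl
  have hYr : (3 : ℝ) ≤ Y := by exact_mod_cast e4
  have hY0 : (0 : ℝ) < Y := by linarith
  have hY1r : (1 : ℝ) ≤ Y := by linarith
  have hlY : 0 < Real.log Y := Real.log_pos (by linarith)
  have hkr : (1 : ℝ) ≤ k := by exact_mod_cast hkk4
  have hlogY : Real.log Y = k * Real.log b := by rw [← hYbk, Real.log_pow]
  obtain ⟨w, Q, hQ, hAs⟩ := hk1 k hkk1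
  obtain ⟨cc, hcL, hcD, HJ⟩ := HE Y hYY0
  rw [hYbk]
  set J := SD b D k with hJ
  have hJ0r : (0 : ℝ) ≤ J.card := Nat.cast_nonneg _
  have hbZ : ∀ p ∈ pr Y ε₁ υ, ¬ p ∣ b := by
    intro p hp hpb
    obtain ⟨u1, u2, u3⟩ := pr_mem Y p ε₁ υ (by omega) hp
    have := Nat.le_of_dvd hb0 hpb
    have : (p : ℝ) ≤ b := by exact_mod_cast this
    linarith
  have hmer : Mer (pr Y ε₁ υ) (tt Y) (fun p => (rb a b p : ℝ) / p) ε₁ υ η1 := by
    intro u v hu huv hv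
    have := HM Y hYY1 u v hu huv hv
    have h5 : ∑ p ∈ (pr Y ε₁ υ).filter (fun p => u ≤ tt Y p ∧ tt Y p < v), (rb a b p : ℝ) / p =
        ∑ p ∈ (pr Y ε₁ υ).filter (fun p => u ≤ tt Y p ∧ tt Y p < v), (ro (QF a) 0 p : ℝ) / p := by
      apply sum_congr rfl
      intro p hp
      unfold rb
      rw [if_neg (hbZ p (mem_filter.1 hp).1)]
    show |∑ p ∈ (pr Y ε₁ υ).filter (fun p => u ≤ tt Y p ∧ tt Y p < v), (rb a b p : ℝ) / p -
      Real.log (v / u)| ≤ η1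
    rw [h5]
    exact this
  have hrb2 : ∀ p : ℕ, p.Prime → rb a b p ≤ 2 := by
    intro p hp
    unfold rb
    split_ifs
    · omega
    · exact ro_quad_le a p hp
  have hrbp : ∀ p : ℕ, p.Prime → rb a b p ≤ p := by
    intro p hp
    unfold rb
    split_ifs
    · omega
    · exact ro_le_self _ _ _
  -- the error
  obtain ⟨Δ, hΔ⟩ : ∃ Δ : ℕ, Δ = ⌊(Y : ℝ) ^ τ'⌋₊ := ⟨_, rfl⟩
  have hΔr : (Δ : ℝ) ≤ (Y : ℝ) ^ τ' := by
    rw [hΔ]
    exact Nat.floor_le (by positivity)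
  have hPZp : ∀ p ∈ PZ Y υ, p.Prime := by
    intro p hp
    unfold PZ at hp
    rw [mem_filter] at hp
    exact hp.2.1
  have herr1 := err_total a b hb0 D k d0 hkk4 hD hD0 hd0 (PZ Y υ) hPZp cc (5 * Real.log Y)
    (by positivity) hcL Δ (by
      intro T hT hcT
      rw [hΔ]
      exact Nat.le_floor (hcD T hT hcT))
  have herr2 := swap_bound b m D k hD hm hmb η σ hη0 (by linarith) hησ.le hσ1 hL C (by linarith) hCk
    Δ w Q hQ
  have herr3 := hAs Δ (by rw [hYbk]; exact hΔr)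
  have hE3 : (1 + Real.log Δ) ^ 2 *
        ∑ e ∈ (Ioc 1 Δ).filter (fun e => Nat.Coprime e b), (kap e : ℝ) / e * TS b D k e ≤ 1 / (k : ℝ) ^ 7 :=
    (mul_le_mul_of_nonneg_left herr2 (sq_nonneg _)).trans herr3
  have herr : |∑ T ∈ (PZ Y υ).powerset, cc T *
      (((J.filter (fun n : ℕ => ∏ p ∈ T, p ∣ ((QF a).eval (n : ℤ)).natAbs)).card : ℝ) -
      J.card * ∏ p ∈ T, ((rb a b p : ℝ) / p))| ≤ J.card / Real.log Y ^ (2 * 2 + 1) := by
    refine herr1.trans ?_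
    calc 5 * Real.log Y * (J.card * ((1 + Real.log Δ) ^ 2 *
        ∑ e ∈ (Ioc 1 Δ).filter (fun e => Nat.Coprime e b), (kap e : ℝ) / e * TS b D k e)) ≤
        5 * Real.log Y * (J.card * (1 / (k : ℝ) ^ 7)) := by
          apply mul_le_mul_of_nonneg_left _ (by positivity)
          exact mul_le_mul_of_nonneg_left hE3 hJ0r
      _ = J.card * (5 * Real.log Y / (k : ℝ) ^ 7) := by ring
      _ ≤ J.card * (1 / Real.log Y ^ (2 * 2 + 1)) := by
          apply mul_le_mul_of_nonneg_left _ hJ0r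
          rw [div_le_div_iff₀ (by positivity) (by positivity)]
          have h5 : 5 * Real.log b ^ 6 ≤ k := hk3.trans (by exact_mod_cast hkk3)
          calc 5 * Real.log Y * Real.log Y ^ (2 * 2 + 1) = (5 * Real.log b ^ 6) * (k : ℝ) ^ 6 := by
                rw [hlogY]
                ring
            _ ≤ k * (k : ℝ) ^ 6 := mul_le_mul_of_nonneg_right h5 (by positivity)
            _ = 1 * (k : ℝ) ^ 7 := by ring
      _ = _ := by ring
  have hmain := HJ J (fun n => ((QF a).eval (n : ℤ)).natAbs) (rb a b) Y (by rw [Real.rpow_one]) hrb2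
    hrbp hmer herr
  -- the local factor
  have hlo : c / Real.log Y ≤ ∏ p ∈ (Icc 1 Y).filter Nat.Prime, (1 - (rb a b p : ℝ) / p) := by
    refine (HLo Y e4).trans ?_
    unfold lo
    apply Finset.prod_le_prod
    · intro p hp
      have hpp := (mem_filter.1 hp).2
      have hp0 : (0 : ℝ) < p := by exact_mod_cast hpp.pos
      rw [sub_nonneg, div_le_one hp0]
      exact_mod_cast ro_le_self (QF a) 0 p
    · intro p hp
      have hpp := (mem_filter.1 hp).2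
      have hp0 : (0 : ℝ) < p := by exact_mod_cast hpp.pos
      unfold rb
      split_ifs
      · simp only [Nat.cast_zero, zero_div, sub_zero]
        have : (0 : ℝ) ≤ (ro (QF a) 0 p : ℝ) / p := by positivity
        linarith
      · exact le_rfl
  -- squares
  have hbad := bad_le a ha0 Y ζ υ (by omega) e3
  have hJY : J ⊆ range Y := filter_subset _ _
  have hJlow := card_SD_ge b m hmb D k hkk4 hD hm (by rw [hD0]; simp)
  rw [hYbk, ← hJ] at hJlow
  have h4k : (0 : ℝ) < 4 ^ k := by positivity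
  have hYζ : (4 : ℝ) ^ k ≤ (Y : ℝ) ^ ζ := by
    rw [← hYbk, ← Real.rpow_natCast, ← Real.rpow_natCast, ← Real.rpow_mul (by positivity),
      mul_comm, Real.rpow_mul (by positivity), Real.rpow_natCast, Real.rpow_natCast]
    exact pow_le_pow_left₀ (by norm_num) hbζ k
  have hYυ : (4 : ℝ) ^ k * (Y : ℝ) ^ υ ≤ Y := by
    have h5 : (4 : ℝ) ^ k ≤ (Y : ℝ) ^ (1 - υ) := by
      rw [← hYbk, ← Real.rpow_natCast, ← Real.rpow_natCast, ← Real.rpow_mul (by positivity),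
        mul_comm, Real.rpow_mul (by positivity), Real.rpow_natCast, Real.rpow_natCast]
      exact pow_le_pow_left₀ (by norm_num) hbυ k
    calc (4 : ℝ) ^ k * (Y : ℝ) ^ υ ≤ (Y : ℝ) ^ (1 - υ) * (Y : ℝ) ^ υ :=
          mul_le_mul_of_nonneg_right h5 (by positivity)
      _ = Y := by
          rw [← Real.rpow_add hY0]
          have : 1 - υ + υ = 1 := by ring
          rw [this, Real.rpow_one]
  have hY4 : (4 : ℝ) ^ k ≤ Y := by
    refine le_trans ?_ hYυ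
    exact le_mul_of_one_le_right h4k.le (Real.one_le_rpow hY1r hυ0.le)
  have hbad2 : ((badS a Y ζ υ).card : ℝ) ≤ 7 * (Y / 4 ^ k) := by
    refine hbad.trans ?_
    have h5 : (1 : ℝ) ≤ Y / 4 ^ k := by rw [le_div_iff₀ h4k]; linarith
    have h6 : (Y : ℝ) * (2 / (Y : ℝ) ^ ζ) ≤ 2 * (Y / 4 ^ k) := by
      calc (Y : ℝ) * (2 / (Y : ℝ) ^ ζ) ≤ (Y : ℝ) * (2 / 4 ^ k) := by gcongr
        _ = _ := by ring
    have h7 : (Y : ℝ) ^ υ ≤ Y / 4 ^ k := by rw [le_div_iff₀ h4k]; linarith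
    linarith
  have hbad3 : 7 * ((Y : ℝ) / 4 ^ k) ≤ δ1 * J.card * (c / Real.log Y) / 2 := by
    have h5 : (Y : ℝ) / 4 ^ k ≤ b * J.card / 2 ^ k := by
      have h8 : (4 : ℝ) ^ k = 2 ^ k * 2 ^ k := by
        rw [← mul_pow]
        norm_num
      rw [div_le_div_iff₀ h4k (by positivity), h8]
      calc (Y : ℝ) * 2 ^ k ≤ (b * 2 ^ k * J.card) * 2 ^ k := mul_le_mul_of_nonneg_right hJlow (by positivity)
        _ = _ := by ring
    have h6 := hk2 k hkk2
    calc 7 * ((Y : ℝ) / 4 ^ k) ≤ 7 * (b * J.card / 2 ^ k) := by linarith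
      _ = J.card * (7 * b / 2 ^ k) := by ring
      _ ≤ J.card * (δ1 * c / (2 * Real.log Y)) := by
          apply mul_le_mul_of_nonneg_left _ hJ0r
          rw [div_le_div_iff₀ (by positivity) (by positivity), hlogY]
          calc 7 * (b : ℝ) * (2 * (k * Real.log b)) = 14 * b * Real.log b * k := by ring
            _ ≤ δ1 * c * 2 ^ k := h6
      _ = _ := by
          field_simp
  -- conclusion
  have hcount : ((J.filter (fun j : ℕ => 0 < WW Y ζ υ lam (lam / υ) ((QF a).eval (j : ℤ)).natAbs)).card : ℝ) ≤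
      ((good a r ((Y : ℝ) ^ ζ) J).card : ℝ) + ((badS a Y ζ υ).card : ℝ) := by
    have hsub : J.filter (fun j : ℕ => 0 < WW Y ζ υ lam (lam / υ) ((QF a).eval (j : ℤ)).natAbs) ⊆
        good a r ((Y : ℝ) ^ ζ) J ∪ badS a Y ζ υ := by
      intro n hn
      rw [mem_filter] at hn
      obtain ⟨hn1, hn2⟩ := hn
      rw [mem_union]
      by_cases hq : ∃ q ∈ pr Y ζ υ, ((q ^ 2 : ℕ) : ℤ) ∣ (QF a).eval (n : ℤ)
      · right
        unfold badS
        rw [mem_filter]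
        exact ⟨hJY hn1, hq⟩
      · left
        unfold good
        rw [mem_filter]
        refine ⟨hn1, ?_⟩
        rw [QF_eval] at hn2
        have hne : ((n : ℤ) ^ 2 + a) ≠ 0 := by
          intro h0
          apply ha
          exact ⟨(n : ℤ), by linarith⟩
        have hnY := mem_range.1 (hJY hn1)
        have hsize : (((n : ℤ) ^ 2 + a).natAbs : ℝ) ≤ (Y : ℝ) ^ S := by
          have u1 : (((n : ℤ) ^ 2 + a).natAbs : ℝ) = |(n : ℝ) ^ 2 + a| := by
            rw [Nat.cast_natAbs]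
            push_cast
            rfl
          rw [u1]
          have u2 : (n : ℝ) ≤ Y := by exact_mod_cast hnY.le
          have u3 : (n : ℝ) ^ 2 ≤ (Y : ℝ) ^ 2 := pow_le_pow_left₀ (Nat.cast_nonneg _) u2 2
          have u4 : (1 : ℝ) ≤ (Y : ℝ) ^ 2 := one_le_pow₀ hY1r
          have u5 := abs_nonneg (a : ℝ)
          have u6 : |(a : ℝ)| * 1 ≤ |(a : ℝ)| * (Y : ℝ) ^ 2 := mul_le_mul_of_nonneg_left u4 u5
          have u7 : (1 + |(a : ℝ)|) * (Y : ℝ) ^ 2 = (Y : ℝ) ^ 2 + |(a : ℝ)| * (Y : ℝ) ^ 2 := by ring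
          calc |(n : ℝ) ^ 2 + a| ≤ |(n : ℝ) ^ 2| + |(a : ℝ)| := abs_add_le _ _
            _ = (n : ℝ) ^ 2 + |(a : ℝ)| := by rw [abs_of_nonneg (by positivity)]
            _ ≤ (1 + |(a : ℝ)|) * (Y : ℝ) ^ 2 := by rw [u7]; linarith
            _ ≤ (Y : ℝ) ^ (S - 2) * (Y : ℝ) ^ 2 := mul_le_mul_of_nonneg_right e2 (by positivity)
            _ = (Y : ℝ) ^ S := by
                rw [← Real.rpow_natCast (Y : ℝ) 2, ← Real.rpow_add hY0]
                congr 1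
                push_cast
                ring
        have hres := almost Y (by omega) ζ υ lam S r hζυ hυ0 hυ1 hlam hr
          ((n : ℤ) ^ 2 + a).natAbs (Int.natAbs_ne_zero.2 hne) hsize hn2 (by
            intro q hq' hqd
            apply hq
            refine ⟨q, hq', ?_⟩
            rw [QF_eval]
            exact Int.natCast_dvd.2 hqd)
        exact ⟨hres.1, fun p hp hpd => hres.2 p hp (Int.natCast_dvd.1 hpd)⟩
    exact_mod_cast (card_le_card hsub).trans (card_union_le _ _)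
  have hfin1 : δ1 * J.card * (c / Real.log Y) ≤ δ1 * J.card *
      ∏ p ∈ (Icc 1 Y).filter Nat.Prime, (1 - (rb a b p : ℝ) / p) :=
    mul_le_mul_of_nonneg_left hlo (by positivity)
  have hfin2 : δ1 * c / (2 * Real.log b) * J.card / k = δ1 * J.card * (c / Real.log Y) / 2 := by
    rw [hlogY]
    have : (k : ℝ) ≠ 0 := by positivity
    field_simp
  rw [hfin2]
  linarith

end Pool.Agent.T3H29.DG
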